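import Pool.Agent.H776R2.Grig.Defs

set_option autoImplicit false

/-! Tree automorphisms, products and commutators of label functions (task A). -/

namespace Pool.Agent.H776R2.Grig

open Pool.Agent.Results.MP_03d093_al.SphereBall

theorem A_afun_len (v : List Bool) : (aFun v).length = v.length := by
  cases v <;> simp [aFun]

theorem A_afun_take (v : List Bool) (n : ℕ) : (aFun v).take n = aFun (v.take n) := by
  cases v <;> cases n <;> simp [aFun]

theorem A_len (v : List Bool) :
    (bFun v).length = v.length ∧ (cFun v).length = v.length ∧ (dFun v).length = v.length := by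
  induction v with
  | nil => simp [bFun, cFun, dFun]
  | cons x v ih =>
    obtain ⟨h1, h2, h3⟩ := ih
    cases x <;> simp [bFun, cFun, dFun, h1, h2, h3, A_afun_len]

theorem A_take (v : List Bool) : ∀ n : ℕ,
    (bFun v).take n = bFun (v.take n) ∧ (cFun v).take n = cFun (v.take n) ∧
      (dFun v).take n = dFun (v.take n) := by
  induction v with
  | nil => intro n; simp [bFun, cFun, dFun]
  | cons x v ih =>
    intro n
    cases n with
    | zero => simp [bFun, cFun, dFun]
    | succ n =>
      obtain ⟨h1, h2, h3⟩ := ih n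
      cases x <;> simp [bFun, cFun, dFun, h1, h2, h3, A_afun_take]

theorem A_ta_gen (s : Lt) : TA (gen s) := by
  cases s
  · exact ⟨A_afun_len, A_afun_take⟩
  · exact ⟨fun v => (A_len v).1, fun v n => (A_take v n).1⟩
  · exact ⟨fun v => (A_len v).2.1, fun v n => (A_take v n).2.1⟩
  · exact ⟨fun v => (A_len v).2.2, fun v n => (A_take v n).2.2⟩

theorem ta_ev (w : List Lt) : TA (ev w) := by
  induction w with
  | nil => exact ⟨fun v => rfl, fun v n => rfl⟩
  | cons s w ih =>
    have hs := A_ta_gen s
    refine ⟨fun v => ?_, fun v n => ?_⟩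
    · rw [ev_cons, Equiv.Perm.mul_apply, hs.1, ih.1]
    · rw [ev_cons, Equiv.Perm.mul_apply, Equiv.Perm.mul_apply, hs.2, ih.2]

theorem lab_one (n : ℕ) : Lab n (fun _ => false) (1 : P) := by
  intro u _ x
  simp

theorem lab_mul {n : ℕ} {p q : List Bool → Bool} {g h : P} (hg : Lab n p g) (hh : Lab n q h) :
    Lab n (fun u => xor (p u) (q u)) (g * h) := by
  intro u hu x
  rw [Equiv.Perm.mul_apply, hh u hu x, hg u hu _]
  show u ++ [xor (xor x (q u)) (p u)] = u ++ [xor x (xor (p u) (q u))]
  cases x <;> cases p u <;> cases q u <;> rfl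

theorem lab_congr {n : ℕ} {p q : List Bool → Bool} {g : P} (h : ∀ u, u.length = n → p u = q u)
    (hg : Lab n p g) : Lab n q g := by
  intro u hu x
  rw [hg u hu x, h u hu]

theorem lab_sec {n : ℕ} {p0 p1 : List Bool → Bool} {g g0 g1 : P} (h : Sec g g0 g1) (h0 : Lab n p0 g0)
    (h1 : Lab n p1 g1) :
    Lab (n + 1) (fun u => if u.headD false then p1 u.tail else p0 u.tail) g := by
  intro u hu x
  cases u with
  | nil => simp at hu
  | cons y u =>
    have hu' : u.length = n := by simpa using hu
    cases y
    · rw [List.cons_append, (h _).1, h0 u hu' x]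
      simp
    · rw [List.cons_append, (h _).2, h1 u hu' x]
      simp

theorem A_afun_append (u v : List Bool) (hu : 1 ≤ u.length) : aFun (u ++ v) = aFun u ++ v := by
  cases u with
  | nil => simp at hu
  | cons y u => simp [aFun]

theorem lab_conj_a {n : ℕ} {p : List Bool → Bool} {g : P} (hn : 1 ≤ n) (h : Lab n p g) :
    Lab n (fun u => p (aFun u)) (a * g * a) := by
  intro u hu x
  have h1 : (aFun u).length = n := by rw [A_afun_len, hu]
  rw [Equiv.Perm.mul_apply, Equiv.Perm.mul_apply, a_apply, a_apply,
    A_afun_append u _ (by omega), h (aFun u) h1 x, A_afun_append (aFun u) _ (by omega),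
    aFun_invol u]

theorem A_fix {j : ℕ} {q : List Bool → Bool} {e : P} (he : TA e) (h : Lab j q e) (v : List Bool)
    (hv : v.length = j) : e v = v := by
  have h1 := h v hv false
  have h2 := he.2 (v ++ [false]) j
  rw [h1, List.take_append_of_le_length (by omega), List.take_append_of_le_length (by omega),
    List.take_of_length_le (by omega)] at h2
  exact h2.symm

theorem A_inv_lab {j : ℕ} {q : List Bool → Bool} {e : P} (h : Lab j q e) : Lab j q e⁻¹ := by
  intro u hu x
  rw [Equiv.Perm.inv_eq_iff_eq, h u hu]
  cases x <;> cases q u <;> rfl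

theorem lab_comm {j n : ℕ} (hj : j < n) {q μ : List Bool → Bool} {we ws : List Lt}
    (he : Lab j q (ev we)) (hs : Lab n (fun u => μ (u.take j) && u.getD j false) (ev ws)) :
    Lab n (fun u => μ (u.take j) && q (u.take j)) (ev (we ++ ws ++ we.reverse ++ ws.reverse)) := by
  intro u hu x
  have hev : ev (we ++ ws ++ we.reverse ++ ws.reverse) = ev we * ev ws * (ev we)⁻¹ * (ev ws)⁻¹ := by
    rw [ev_append, ev_append, ev_append, ev_reverse, ev_reverse]
  have hTA : TA ((ev we)⁻¹) := by
    rw [← ev_reverse]
    exact ta_ev _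
  have hTA' : TA (ev we) := ta_ev we
  have hsi := A_inv_lab hs
  have hei := A_inv_lab he
  set e := ev we
  set s := ev ws
  rw [hev]
  simp only [Equiv.Perm.mul_apply]
  rw [hsi u hu x]
  -- `e⁻¹ (u ++ [y]) = u' ++ [φ y]`
  obtain ⟨u', hu'⟩ : ∃ u', u' = e⁻¹ u := ⟨_, rfl⟩
  have hul : u'.length = n := by rw [hu', hTA.1, hu]
  have hφ : ∀ y : Bool, ∃ z : Bool, e⁻¹ (u ++ [y]) = u' ++ [z] := by
    intro y
    have h1 : (e⁻¹ (u ++ [y])).length = n + 1 := by rw [hTA.1]; simp [hu]
    have h2 : (e⁻¹ (u ++ [y])).take n = u' := by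
      rw [hTA.2, List.take_append_of_le_length (by omega), List.take_of_length_le (by omega), hu']
    have h3 : ((e⁻¹ (u ++ [y])).drop n).length = 1 := by rw [List.length_drop, h1]; omega
    obtain ⟨z, hz⟩ := List.length_eq_one_iff.mp h3
    refine ⟨z, ?_⟩
    rw [← h2, ← hz, List.take_append_drop]
  choose φ hφ using hφ
  have hφ' : ∀ y, e (u' ++ [φ y]) = u ++ [y] := by
    intro y
    rw [← hφ y]
    exact Equiv.apply_symm_apply e _
  have hφn : ∀ y, φ (!y) = !(φ y) := by
    intro y
    have hne : φ (!y) ≠ φ y := by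
      intro h
      have h1 := hφ' (!y)
      rw [h, hφ' y] at h1
      have h2 : [y] = [!y] := List.append_cancel_left h1
      cases y <;> simp at h2
    cases h1 : φ (!y) <;> cases h2 : φ y <;> simp_all
  have hφx : ∀ y t, φ (xor y t) = xor (φ y) t := by
    intro y t
    cases t
    · simp
    · have := hφn y
      simpa using this
  rw [hφ, hs u' hul]
  have hkey : ∀ y t, e (u' ++ [xor (φ y) t]) = u ++ [xor y t] := by
    intro y t
    rw [← hφx, hφ']
  rw [hkey]
  -- the labels
  have ht : u'.take j = u.take j := by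
    rw [hu', hTA.2]
    exact A_fix hTA hei _ (by rw [List.length_take]; omega)
  have hsplit : ∀ w : List Bool, w.length = n → w.take (j + 1) = w.take j ++ [w.getD j false] := by
    intro w hw
    rw [List.take_add_one, List.getD_eq_getElem?_getD]
    have : w[j]? = some (w[j]'(by omega)) := List.getElem?_eq_getElem (by omega)
    rw [this]
    rfl
  have hget : u'.getD j false = xor (u.getD j false) (q (u.take j)) := by
    have h1 : u'.take (j + 1) = u.take j ++ [xor (u.getD j false) (q (u.take j))] := by
      rw [hu', hTA.2, hsplit u hu]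
      exact hei _ (by rw [List.length_take]; omega) _
    rw [hsplit u' hul, ht] at h1
    have h2 := List.append_cancel_left h1
    simpa using h2
  show u ++ [xor (xor x (μ (u.take j) && u.getD j false)) (μ (u'.take j) && u'.getD j false)] =
    u ++ [xor x (μ (u.take j) && q (u.take j))]
  rw [ht, hget]
  cases x <;> cases μ (u.take j) <;> cases u.getD j false <;> cases q (u.take j) <;> rfl

end Pool.Agent.H776R2.Grig
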