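import Mathlib
import Pool.Agent.Results.MP_03d093_al.SphereBall

set_option autoImplicit false

/-! Definitions for the exact growth of the first Grigorchuk group. -/

namespace Pool.Agent.H776R2.Grig

open Pool.Agent.Results.MP_03d093_al.SphereBall

deriving instance DecidableEq for Lt

/-- permutations of the set of finite binary words -/
abbrev P := Equiv.Perm (List Bool)

/-- `g` maps `u x` to `u (x + p(u))` for every word `u` of length `n` and every letter `x`; in particular it
fixes the words of length `n`, and `p` is its label function on level `n`. -/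
def Lab (n : ℕ) (p : List Bool → Bool) (g : P) : Prop :=
  ∀ u : List Bool, u.length = n → ∀ x : Bool, g (u ++ [x]) = u ++ [xor x (p u)]

/-- `g` preserves lengths and prefixes -/
def TA (g : P) : Prop := (∀ v, (g v).length = v.length) ∧ ∀ v n, (g v).take n = g (v.take n)

/-- the letters `b, c, d` -/
inductive V
  | b | c | d
  deriving DecidableEq

def V.lt : V → Lt
  | .b => .B
  | .c => .C
  | .d => .D

/-- the word `v₁ a v₂ a ⋯ v_m a` -/
def U (v : List V) : List Lt := v.flatMap fun x => [x.lt, Lt.A]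

/-- the substitution `b ↦ bdc`, `c ↦ bb`, `d ↦ cc` on sequences of letters -/
def th1 : V → List V
  | .b => [.b, .d, .c]
  | .c => [.b, .b]
  | .d => [.c, .c]

def th (v : List V) : List V := v.flatMap th1

/-- `a` or `1` -/
def pa (e : Bool) : P := if e then a else 1

/-- words whose image under `tau` and under `tau ∘ sig` is trivial and with even numbers of all letters -/
structure Good (w : List Lt) : Prop where
  t1 : tau w = 1
  t2 : tau (sig w) = 1
  eA : Even (w.count Lt.A)
  eB : Even (w.count Lt.B)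
  eC : Even (w.count Lt.C)
  eD : Even (w.count Lt.D)

/-- the polynomial `x³ - x² - 2x - 4` has exactly one positive root -/
theorem exists_unique_lam : ∃! l : ℝ, 0 < l ∧ l ^ 3 = l ^ 2 + 2 * l + 4 := by
  have hc : Continuous fun x : ℝ => x ^ 3 - (x ^ 2 + 2 * x + 4) := by fun_prop
  have := intermediate_value_Icc (show (2 : ℝ) ≤ 3 by norm_num) hc.continuousOn
  obtain ⟨l, ⟨h1, h2⟩, h3⟩ := this (show (0 : ℝ) ∈ _ by constructor <;> norm_num)
  simp only at h3
  refine ⟨l, ⟨by linarith, by linarith⟩, ?_⟩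
  rintro y ⟨hy, hy'⟩
  have hl : l ^ 3 = l ^ 2 + 2 * l + 4 := by linarith
  have hl0 : 0 < l := by linarith
  have h4 : (y - l) * (y ^ 2 * l ^ 2 + 2 * y * l * (y + l) + 4 * (y ^ 2 + y * l + l ^ 2)) = 0 := by
    linear_combination (-y ^ 3) * hl + l ^ 3 * hy'
  have h5 : 0 < y ^ 2 * l ^ 2 + 2 * y * l * (y + l) + 4 * (y ^ 2 + y * l + l ^ 2) := by positivity
  rcases mul_eq_zero.1 h4 with h | h
  · linarith
  · exact absurd h h5.ne'

/-- the positive root `λ ≈ 2.4675` of `x³ - x² - 2x - 4` -/
noncomputable def lam : ℝ := exists_unique_lam.choose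

theorem lam_eq : lam ^ 3 = lam ^ 2 + 2 * lam + 4 := exists_unique_lam.choose_spec.1.2

theorem lam_pos : 0 < lam := exists_unique_lam.choose_spec.1.1

theorem lam_gt : 2.465 < lam := by
  by_contra h
  push Not at h
  have h0 := lam_pos
  have h1 := lam_eq
  nlinarith [mul_nonneg h0.le (sub_nonneg.2 h), mul_nonneg (mul_nonneg h0.le h0.le) (sub_nonneg.2 h)]

theorem lam_lt : lam < 2.468 := by
  by_contra h
  push Not at h
  have h1 := lam_eq
  nlinarith [mul_nonneg (sub_nonneg.2 h) (sub_nonneg.2 h), mul_nonneg (mul_nonneg (sub_nonneg.2 h) (sub_nonneg.2 h)) (sub_nonneg.2 h)]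

/-- `α = log 2 / log λ ≈ 0.7674` -/
noncomputable def alpha : ℝ := Real.log 2 / Real.log lam

/-- the function `n ↦ ⌊exp(n^α)⌋` -/
noncomputable def expo (n : ℕ) : ℕ := ⌊Real.exp ((n : ℝ) ^ alpha)⌋₊

/-- `f ⪯ g`: there is `C ≥ 1` with `f n ≤ g (C n)` for all `n`. -/
def Domi (f g : ℕ → ℕ) : Prop := ∃ C : ℕ, 1 ≤ C ∧ ∀ n : ℕ, f n ≤ g (C * n)

/-! Weights for the upper bound. -/

/-- `μ = λ / 2 ≈ 1.2337`, `2 μ³ = μ² + μ + 1` -/
noncomputable def mu : ℝ := lam / 2

/-- weights of the letters: `a ↦ 0`, `b ↦ μ²`, `c ↦ μ`, `d ↦ 1` -/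
noncomputable def wt : Lt → ℝ
  | .A => 0
  | .B => mu ^ 2
  | .C => mu
  | .D => 1

noncomputable def Kw (w : List Lt) : ℝ := (w.map wt).sum

/-- the weighted length of an element -/
noncomputable def K (g : P) : ℝ := sInf {x : ℝ | ∃ w : List Lt, ev w = g ∧ Kw w = x}

end Pool.Agent.H776R2.Grig
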