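import Pool.Agent.H776R2.Grig.Defs

set_option autoImplicit false
set_option linter.unusedSimpArgs false

/-! All label functions on a finite level are realised by good words (task B). -/

namespace Pool.Agent.H776R2.Grig

open Pool.Agent.Results.MP_03d093_al.SphereBall

theorem B_tau_cons (s : Lt) (w : List Lt) : tau (s :: w) = tauG s * tau w := by simp [tau]

theorem B_tau_append (u w : List Lt) : tau (u ++ w) = tau u * tau w := by simp [tau]

theorem B_sig_append (u w : List Lt) : sig (u ++ w) = sig u ++ sig w := by simp [sig]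

theorem B_sig_cons (s : Lt) (w : List Lt) : sig (s :: w) = sg s ++ sig w := by simp [sig]

theorem B_tau_sig_sig (w : List Lt) :
    tau (sig (sig w)) = a ^ (w.count Lt.B + w.count Lt.C) := by
  induction w with
  | nil => simp [sig, tau]
  | cons s w ih =>
    rw [B_sig_cons, B_sig_append, B_tau_append, ih]
    cases s
    · have h : tau (sig (sg Lt.A)) = 1 := by
        have e : tau (sig (sg Lt.A)) = (d * a * d) * (d * a * d) := by
          simp [sg, sig, tau, tauG, mul_assoc]
        rw [e]
        calc (d * a * d) * (d * a * d) = d * a * (d * d) * a * d := by group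
          _ = d * (a * a) * d := by rw [dd, mul_one]; group
          _ = 1 := by rw [aa, mul_one, dd]
      rw [h, one_mul]
      simp [List.count_cons]
    · have h : tau (sig (sg Lt.B)) = a := by simp [sg, sig, tau, tauG]
      rw [h, ← pow_succ']
      congr 1
      simp [List.count_cons]
      omega
    · have h : tau (sig (sg Lt.C)) = a := by simp [sg, sig, tau, tauG]
      rw [h, ← pow_succ']
      congr 1
      simp [List.count_cons]
      omega
    · have h : tau (sig (sg Lt.D)) = 1 := by simp [sg, sig, tau, tauG]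
      rw [h, one_mul]
      simp [List.count_cons]

theorem B_count_sig (w : List Lt) : (sig w).count Lt.A = 2 * w.count Lt.A ∧
    (sig w).count Lt.B = w.count Lt.C ∧ (sig w).count Lt.C = w.count Lt.A + w.count Lt.D ∧
    (sig w).count Lt.D = w.count Lt.B := by
  induction w with
  | nil => simp [sig]
  | cons s w ih =>
    obtain ⟨h1, h2, h3, h4⟩ := ih
    rw [B_sig_cons]
    simp only [List.count_append, h1, h2, h3, h4]
    cases s <;> simp [sg, List.count_cons] <;> omega

theorem B_good_nil : Good [] := by
  constructor <;> simp [tau, sig]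

theorem B_good_sig {w : List Lt} (h : Good w) : Good (sig w) := by
  obtain ⟨c1, c2, c3, c4⟩ := B_count_sig w
  refine ⟨h.t2, ?_, ?_, ?_, ?_, ?_⟩
  · rw [B_tau_sig_sig]
    obtain ⟨k, hk⟩ := h.eB.add h.eC
    rw [hk, ← two_mul, pow_mul, pow_two, aa, one_pow]
  · rw [c1]; exact even_two_mul _
  · rw [c2]; exact h.eC
  · rw [c3]; exact h.eA.add h.eD
  · rw [c4]; exact h.eB

theorem B_good_append {u w : List Lt} (hu : Good u) (hw : Good w) : Good (u ++ w) := by
  refine ⟨?_, ?_, ?_, ?_, ?_, ?_⟩
  · rw [B_tau_append, hu.t1, hw.t1, one_mul]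
  · rw [B_sig_append, B_tau_append, hu.t2, hw.t2, one_mul]
  · rw [List.count_append]; exact hu.eA.add hw.eA
  · rw [List.count_append]; exact hu.eB.add hw.eB
  · rw [List.count_append]; exact hu.eC.add hw.eC
  · rw [List.count_append]; exact hu.eD.add hw.eD

theorem B_good_conj {w : List Lt} (h : Good w) : Good ([Lt.A] ++ w ++ [Lt.A]) := by
  refine ⟨?_, ?_, ?_, ?_, ?_, ?_⟩
  · rw [B_tau_append, B_tau_append, h.t1]
    simp [tau, tauG, dd]
  · rw [B_sig_append, B_sig_append, B_tau_append, B_tau_append, h.t2, mul_one]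
    have e : tau (sig [Lt.A]) = d * a * d := by simp [sg, sig, tau, tauG, mul_assoc]
    rw [e]
    calc (d * a * d) * (d * a * d) = d * a * (d * d) * a * d := by group
      _ = d * (a * a) * d := by rw [dd, mul_one]; group
      _ = 1 := by rw [aa, mul_one, dd]
  · have := h.eA
    simp only [List.count_append, List.count_singleton]
    simp
    obtain ⟨k, hk⟩ := this
    exact ⟨k + 1, by omega⟩
  · simpa [List.count_append, List.count_cons] using h.eB
  · simpa [List.count_append, List.count_cons] using h.eC
  · simpa [List.count_append, List.count_cons] using h.eD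

theorem B_good_abab : Good [Lt.A, Lt.B, Lt.A, Lt.B] := by
  refine ⟨?_, ?_, ?_, ?_, ?_, ?_⟩
  · simp [tau, tauG, dd]
  · have e : tau (sig [Lt.A, Lt.B, Lt.A, Lt.B]) = (d * (a * d * a)) * (d * a * d * a) := by
      simp [sg, sig, tau, tauG, mul_assoc]
    rw [e, ← adad]
    calc a * d * a * d * (d * a * d * a) = a * d * a * (d * d) * a * d * a := by group
      _ = a * d * (a * a) * d * a := by rw [dd, mul_one]; group
      _ = a * (d * d) * a := by rw [aa, mul_one]; group
      _ = 1 := by rw [dd, mul_one, aa]
  · simp [List.count_cons]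
  · simp [List.count_cons]
  · simp [List.count_cons]
  · simp [List.count_cons]

/-- the word with sections `w0`, `w1` -/
def B_join (w0 w1 : List Lt) : List Lt := sig w1 ++ ([Lt.A] ++ sig w0 ++ [Lt.A])

theorem B_join_good {w0 w1 : List Lt} (h0 : Good w0) (h1 : Good w1) : Good (B_join w0 w1) :=
  B_good_append (B_good_sig h1) (B_good_conj (B_good_sig h0))

theorem B_join_length (w0 w1 : List Lt) (B : ℕ) (h0 : w0.length ≤ B) (h1 : w1.length ≤ B) :
    (B_join w0 w1).length ≤ 6 * B + 2 := by
  have e0 := sig_length w0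
  have e1 := sig_length w1
  simp only [B_join, List.length_append, List.length_cons, List.length_nil]
  omega

theorem B_join_sec {w0 w1 : List Lt} (h0 : Good w0) (h1 : Good w1) :
    Sec (ev (B_join w0 w1)) (ev w0) (ev w1) := by
  have e1 := sec_sig w1
  have e0 := (sec_sig w0).conj
  rw [h1.t1] at e1
  rw [h0.t1] at e0
  have e := e1.mul e0
  rw [one_mul, mul_one] at e
  have h : ev (B_join w0 w1) = ev (sig w1) * (a * ev (sig w0) * a) := by
    simp [B_join, ev_append, gen, mul_assoc]
  rw [h]
  exact e

theorem B_lab_congr {n : ℕ} {p q : List Bool → Bool} {g : P} (h : ∀ u, u.length = n → p u = q u)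
    (hg : Lab n p g) : Lab n q g := by
  intro u hu x
  rw [hg u hu x, h u hu]

theorem B_lab_sec {n : ℕ} {p0 p1 : List Bool → Bool} {g g0 g1 : P} (h : Sec g g0 g1)
    (h0 : Lab n p0 g0) (h1 : Lab n p1 g1) :
    Lab (n + 1) (fun u => if u.headD false then p1 u.tail else p0 u.tail) g := by
  intro u hu x
  match u with
  | [] => simp at hu
  | false :: u =>
    have hu' : u.length = n := by simpa using hu
    rw [List.cons_append, (h _).1, h0 u hu' x]
    simp
  | true :: u =>
    have hu' : u.length = n := by simpa using hu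
    rw [List.cons_append, (h _).2, h1 u hu' x]
    simp

theorem B_lab_zero (h : List Bool → Bool) : ∃ w : List Lt, Good w ∧ w.length ≤ 4 ∧
    Lab 1 (fun u => h (u.take 0)) (ev w) := by
  rcases hh : h [] with _ | _
  · refine ⟨[], B_good_nil, by simp, ?_⟩
    intro u _ x
    simp [hh]
  · refine ⟨[Lt.A, Lt.B, Lt.A, Lt.B], B_good_abab, by simp, ?_⟩
    intro u hu x
    match u, hu with
    | [y], _ =>
      simp only [List.take_zero, hh]
      cases y <;> cases x <;>
        simp [ev, gen, a_apply, b_apply, aFun, bFun, cFun, dFun]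

theorem base (t : ℕ) : ∃ B : ℕ, ∀ h : List Bool → Bool, ∃ w : List Lt, Good w ∧ w.length ≤ B ∧
    Lab (t + 1) (fun u => h (u.take t)) (ev w) := by
  induction t with
  | zero => exact ⟨4, fun h => B_lab_zero h⟩
  | succ t ih =>
    obtain ⟨B, hB⟩ := ih
    refine ⟨6 * B + 2, fun h => ?_⟩
    obtain ⟨w0, g0, l0, e0⟩ := hB (fun u => h (false :: u))
    obtain ⟨w1, g1, l1, e1⟩ := hB (fun u => h (true :: u))
    refine ⟨B_join w0 w1, B_join_good g0 g1, B_join_length w0 w1 B l0 l1, ?_⟩
    refine B_lab_congr ?_ (B_lab_sec (B_join_sec g0 g1) e0 e1)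
    intro u hu
    match u with
    | [] => simp at hu
    | false :: u => simp
    | true :: u => simp

theorem base1 (t : ℕ) : ∃ B : ℕ, ∀ h : List Bool → Bool, ∃ w : List Lt, Good w ∧ w.length ≤ B ∧
    Lab (t + 2) (fun u => h ((u.drop 1).take t)) (ev w) := by
  obtain ⟨B, hB⟩ := base t
  refine ⟨6 * B + 2, fun h => ?_⟩
  obtain ⟨w, g, l, e⟩ := hB h
  refine ⟨B_join w w, B_join_good g g, B_join_length w w B l l, ?_⟩
  refine B_lab_congr ?_ (B_lab_sec (B_join_sec g g) e e)
  intro u hu
  match u with
  | [] => simp at hu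
  | false :: u => simp
  | true :: u => simp

end Pool.Agent.H776R2.Grig
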