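import Pool.Agent.H776R2.Grig.Defs

set_option autoImplicit false

/-! Task F: contraction inequality for weighted lengths. -/

namespace Pool.Agent.H776R2.Grig

open Pool.Agent.Results.MP_03d093_al.SphereBall

theorem F_rel (w : List Bool) :
    bFun (cFun w) = dFun w ∧ cFun (bFun w) = dFun w ∧ cFun (dFun w) = bFun w ∧
    dFun (cFun w) = bFun w ∧ bFun (dFun w) = cFun w ∧ dFun (bFun w) = cFun w := by
  induction w with
  | nil => simp [bFun, cFun, dFun]
  | cons x w ih =>
    obtain ⟨h1, h2, h3, h4, h5, h6⟩ := ih
    cases x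
    · simp [bFun, cFun, dFun, aFun_invol w]
    · simp [bFun, cFun, dFun, h1, h2, h3, h4, h5, h6]

theorem F_bc : b * c = d := by ext1 w; exact (F_rel w).1
theorem F_cb : c * b = d := by ext1 w; exact (F_rel w).2.1
theorem F_cd : c * d = b := by ext1 w; exact (F_rel w).2.2.1
theorem F_dc : d * c = b := by ext1 w; exact (F_rel w).2.2.2.1
theorem F_bd : b * d = c := by ext1 w; exact (F_rel w).2.2.2.2.1
theorem F_db : d * b = c := by ext1 w; exact (F_rel w).2.2.2.2.2

/-- the element of an optional letter -/
def F_el : Option V → P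
  | none => 1
  | some x => gen x.lt

/-- the word of an optional letter -/
def F_wd : Option V → List Lt
  | none => []
  | some x => [x.lt]

theorem F_el_wd (y : Option V) : ev (F_wd y) = F_el y := by
  cases y <;> simp [F_wd, F_el]

noncomputable def F_phi : Option V → ℝ
  | none => mu + 1 - mu ^ 2
  | some x => wt x.lt

def F_chi : V → P
  | .b => a
  | .c => a
  | .d => 1

def F_rho : V → V
  | .b => .c
  | .c => .d
  | .d => .b

theorem F_sec (x : V) : Sec (gen x.lt) (F_chi x) (gen (F_rho x).lt) := by
  cases x
  · exact sec_b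
  · exact sec_c
  · exact sec_d

/-- product in the Klein group -/
def F_mul : V → Option V → Option V
  | x, none => some x
  | .b, some .b => none
  | .b, some .c => some .d
  | .b, some .d => some .c
  | .c, some .b => some .d
  | .c, some .c => none
  | .c, some .d => some .b
  | .d, some .b => some .c
  | .d, some .c => some .b
  | .d, some .d => none

theorem F_mul_el (x : V) (y : Option V) : gen x.lt * F_el y = F_el (F_mul x y) := by
  rcases y with _ | y
  · cases x <;> simp [F_mul, F_el]
  · cases x <;> cases y
    · exact gen_sq .B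
    · exact F_bc
    · exact F_bd
    · exact F_cb
    · exact gen_sq .C
    · exact F_cd
    · exact F_db
    · exact F_dc
    · exact gen_sq .D

theorem F_mu_eq : 2 * mu ^ 3 = mu ^ 2 + mu + 1 := by
  have h := lam_eq
  have h2 : lam = 2 * mu := by unfold mu; ring
  rw [h2] at h
  linarith [h]

theorem F_mu_gt : 1.2325 < mu := by have := lam_gt; unfold mu; linarith
theorem F_mu_lt : mu < 1.234 := by have := lam_lt; unfold mu; linarith

theorem F_phi_le (x : V) (y : Option V) :
    F_phi (F_mul x y) ≤ F_phi y - (mu + 1 - mu ^ 2) + wt x.lt := by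
  have h1 := F_mu_gt
  have h2 := F_mu_lt
  rcases y with _ | y
  · cases x <;> simp [F_mul, F_phi]
  · cases x <;> cases y <;> simp only [F_mul, F_phi, V.lt, wt] <;> nlinarith

theorem F_wd_le (y : Option V) : Kw (F_wd y) ≤ F_phi y := by
  have h1 := F_mu_gt
  have h2 := F_mu_lt
  rcases y with _ | y
  · simp only [F_wd, F_phi, Kw, List.map_nil, List.sum_nil]; nlinarith
  · simp [F_wd, F_phi, Kw]

theorem F_Kw_append (v w : List Lt) : Kw (v ++ w) = Kw v + Kw w := by simp [Kw]

theorem F_Kw_cons (x : Lt) (w : List Lt) : Kw (x :: w) = wt x + Kw w := by simp [Kw]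

theorem F_U_cons (x : V) (v : List V) : U (x :: v) = x.lt :: Lt.A :: U v := by
  simp [U]

theorem F_main (v : List V) : ∃ (y0 y1 : Option V) (w0 w1 : List Lt),
    (Even v.length → Sec (ev (U v)) (F_el y0 * ev w0) (F_el y1 * ev w1)) ∧
    (¬ Even v.length → Sec (ev (U v) * a) (F_el y0 * ev w0) (F_el y1 * ev w1)) ∧
    (F_phi y0 + Kw w0) + (F_phi y1 + Kw w1) ≤ Kw (U v) / mu + 2 * (mu + 1 - mu ^ 2) := by
  have hmu := F_mu_gt
  have hmu0 : 0 < mu := by linarith
  induction v with
  | nil =>
    refine ⟨none, none, [], [], ?_, ?_, ?_⟩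
    · intro _
      simpa [U, F_el] using Sec.one
    · intro h
      exact absurd (by simp) h
    · simp only [F_phi, Kw, U, List.flatMap_nil, List.map_nil, List.sum_nil]
      rw [zero_div]; linarith
  | cons x v ih =>
    obtain ⟨y0, y1, w0, w1, h1, h2, h3⟩ := ih
    -- the sections of the new element
    have key : (Even (x :: v).length → Sec (ev (U (x :: v)))
        (F_chi x * (F_el y1 * ev w1)) (gen (F_rho x).lt * (F_el y0 * ev w0))) ∧
        (¬ Even (x :: v).length → Sec (ev (U (x :: v)) * a)
        (F_chi x * (F_el y1 * ev w1)) (gen (F_rho x).lt * (F_el y0 * ev w0))) := by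
      constructor
      · intro he
        have ho : ¬ Even v.length := by
          rw [List.length_cons, Nat.even_add_one] at he; exact he
        have := (F_sec x).mul (h2 ho).conj
        have e : ev (U (x :: v)) = gen x.lt * (a * (ev (U v) * a) * a) := by
          rw [F_U_cons, ev_cons, ev_cons]
          simp only [gen, mul_assoc, aa, mul_one]
        rw [e]; exact this
      · intro he
        have ho : Even v.length := by
          rw [List.length_cons, Nat.even_add_one, not_not] at he; exact he
        have := (F_sec x).mul (h1 ho).conj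
        have e : ev (U (x :: v)) * a = gen x.lt * (a * ev (U v) * a) := by
          rw [F_U_cons, ev_cons, ev_cons]
          simp only [gen, mul_assoc]
        rw [e]; exact this
    have hK : Kw (U (x :: v)) = wt x.lt + Kw (U v) := by
      rw [F_U_cons, F_Kw_cons, F_Kw_cons]; simp [wt]
    have e1 : gen (F_rho x).lt * (F_el y0 * ev w0) = F_el (F_mul (F_rho x) y0) * ev w0 := by
      rw [← mul_assoc, F_mul_el]
    have hp := F_phi_le (F_rho x) y0
    have hy := F_wd_le y1
    have hcase : (F_chi x = a ∧ wt (F_rho x).lt = wt x.lt / mu) ∨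
        (F_chi x = 1 ∧ wt (F_rho x).lt - (mu + 1 - mu ^ 2) = wt x.lt / mu) := by
      cases x
      · left; refine ⟨rfl, ?_⟩
        simp only [F_rho, V.lt, wt]; field_simp
      · left; refine ⟨rfl, ?_⟩
        simp only [F_rho, V.lt, wt]; field_simp
      · right; refine ⟨rfl, ?_⟩
        simp only [F_rho, V.lt, wt]
        rw [eq_div_iff hmu0.ne']
        linear_combination F_mu_eq
    rcases hcase with ⟨hc, hw⟩ | ⟨hc, hw⟩
    · refine ⟨none, F_mul (F_rho x) y0, Lt.A :: (F_wd y1 ++ w1), w0, ?_, ?_, ?_⟩
      · intro he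
        have := key.1 he
        rw [e1, hc] at this
        simpa [F_el, ev_append, F_el_wd, gen] using this
      · intro he
        have := key.2 he
        rw [e1, hc] at this
        simpa [F_el, ev_append, F_el_wd, gen] using this
      · rw [hK, F_Kw_cons, F_Kw_append, add_div, ← hw]
        have h4 : F_phi none = mu + 1 - mu ^ 2 := rfl
        have h5 : wt Lt.A = 0 := rfl
        rw [h4, h5]
        linarith
    · refine ⟨y1, F_mul (F_rho x) y0, w1, w0, ?_, ?_, ?_⟩
      · intro he
        have := key.1 he
        rw [e1, hc, one_mul] at this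
        exact this
      · intro he
        have := key.2 he
        rw [e1, hc, one_mul] at this
        exact this
      · rw [hK, add_div, ← hw]
        linarith

theorem contraction (v : List V) : ∃ w0 w1 : List Lt,
    (Even v.length → Sec (ev (U v)) (ev w0) (ev w1)) ∧
    (¬ Even v.length → Sec (ev (U v) * a) (ev w0) (ev w1)) ∧
    Kw w0 + Kw w1 ≤ Kw (U v) / mu + 2 * (mu + 1 - mu ^ 2) := by
  obtain ⟨y0, y1, w0, w1, h1, h2, h3⟩ := F_main v
  refine ⟨F_wd y0 ++ w0, F_wd y1 ++ w1, ?_, ?_, ?_⟩
  · intro he
    rw [ev_append, ev_append, F_el_wd, F_el_wd]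
    exact h1 he
  · intro he
    rw [ev_append, ev_append, F_el_wd, F_el_wd]
    exact h2 he
  · rw [F_Kw_append, F_Kw_append]
    have := F_wd_le y0
    have := F_wd_le y1
    linarith

end Pool.Agent.H776R2.Grig
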