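import Pool.Agent.H776R2.Grig.Defs

set_option autoImplicit false

/-! Task C: the doubling substitution `b ↦ bdc`, `c ↦ bb`, `d ↦ cc`. -/

namespace Pool.Agent.H776R2.Grig

open Pool.Agent.Results.MP_03d093_al.SphereBall

theorem C_bcd (w : List Bool) :
    cFun (dFun w) = bFun w ∧ dFun (bFun w) = cFun w ∧ bFun (cFun w) = dFun w := by
  induction w with
  | nil => simp [bFun, cFun, dFun]
  | cons x w ih =>
    obtain ⟨h1, h2, h3⟩ := ih
    cases x
    · simp [bFun, cFun, dFun, aFun_invol w]
    · simp [bFun, cFun, dFun, h1, h2, h3]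

theorem C_cd : c * d = b := by
  ext1 w
  exact (C_bcd w).1

theorem C_U_nil : U [] = [] := rfl

theorem C_U_cons (x : V) (v : List V) : U (x :: v) = x.lt :: Lt.A :: U v := by
  simp [U]

theorem C_U_append (v w : List V) : U (v ++ w) = U v ++ U w := by
  simp [U]

theorem C_th_cons (x : V) (v : List V) : th (x :: v) = th1 x ++ th v := by
  simp [th]

theorem C_ev_U_cons (x : V) (v : List V) : ev (U (x :: v)) = gen x.lt * (a * ev (U v)) := by
  rw [C_U_cons, ev_cons, ev_cons]
  rfl

theorem C_ev_U_th_cons (x : V) (v : List V) :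
    ev (U (th (x :: v))) = ev (U (th1 x)) * ev (U (th v)) := by
  rw [C_th_cons, C_U_append, ev_append]

theorem C_aa_left (g : P) : a * (a * g) = g := by
  rw [← mul_assoc, aa, one_mul]

theorem C_sec_c : Sec (ev (U (th1 V.c))) (a * c) (c * a) := by
  have := sec_b.mul sec_b.conj
  have e : ev (U (th1 V.c)) = b * (a * b * a) := by
    simp [th1, U, V.lt, gen, mul_assoc]
  rw [e]
  exact this

theorem C_sec_d : Sec (ev (U (th1 V.d))) (a * d) (d * a) := by
  have := sec_c.mul sec_c.conj
  have e : ev (U (th1 V.d)) = c * (a * c * a) := by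
    simp [th1, U, V.lt, gen, mul_assoc]
  rw [e]
  exact this

theorem C_sec_b : Sec (b * (a * d * a) * c) (a * b * a) b := by
  have := (sec_b.mul sec_d.conj).mul sec_c
  rw [mul_one, C_cd] at this
  exact this

theorem C_ev_b : ev (U (th1 V.b)) = b * (a * d * a) * c * a := by
  simp [th1, U, V.lt, gen, mul_assoc]

theorem C_gen_b : gen V.b.lt = b := rfl
theorem C_gen_c : gen V.c.lt = c := rfl
theorem C_gen_d : gen V.d.lt = d := rfl

theorem sec_th (v : List V) :
    (Even (v.count V.b) → Sec (ev (U (th v))) (a * ev (U v) * a) (ev (U v))) ∧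
    (¬ Even (v.count V.b) → Sec (ev (U (th v)) * a) (a * ev (U v)) (ev (U v) * a)) := by
  induction v with
  | nil =>
    refine ⟨fun _ => ?_, fun h => ?_⟩
    · have e : U (th []) = [] := rfl
      rw [e, C_U_nil, ev_nil, mul_one, aa]
      exact Sec.one
    · exact absurd (by simp) h
  | cons x v ih =>
    obtain ⟨ih1, ih2⟩ := ih
    rw [C_ev_U_th_cons, C_ev_U_cons]
    generalize hX : ev (U v) = X at *
    generalize hY : ev (U (th v)) = Y at *
    cases x
    · rw [List.count_cons_self, Nat.even_add_one, C_gen_b, C_ev_b, not_not]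
      refine ⟨fun h => ?_, fun h => ?_⟩
      · have h1 := C_sec_b.mul (ih2 h).conj
        convert h1 using 1
        all_goals simp only [mul_assoc, aa, mul_one]
      · have h1 := C_sec_b.mul (ih1 h).conj
        convert h1 using 1
        all_goals simp only [mul_assoc, aa, mul_one]
    · rw [List.count_cons_of_ne (by decide), C_gen_c]
      refine ⟨fun h => ?_, fun h => ?_⟩
      · have h1 := C_sec_c.mul (ih1 h)
        convert h1 using 1
        all_goals simp only [mul_assoc]
      · have h1 := C_sec_c.mul (ih2 h)
        convert h1 using 1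
        all_goals simp only [mul_assoc]
    · rw [List.count_cons_of_ne (by decide), C_gen_d]
      refine ⟨fun h => ?_, fun h => ?_⟩
      · have h1 := C_sec_d.mul (ih1 h)
        convert h1 using 1
        all_goals simp only [mul_assoc]
      · have h1 := C_sec_d.mul (ih2 h)
        convert h1 using 1
        all_goals simp only [mul_assoc]

theorem count_b_th (v : List V) : (th v).count V.b = v.count V.b + 2 * v.count V.c := by
  induction v with
  | nil => rfl
  | cons x v ih =>
    rw [C_th_cons, List.count_append, ih]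
    cases x <;> simp [th1] <;> ring

theorem C_th_length (v : List V) :
    (th v).length = 3 * v.count V.b + 2 * v.count V.c + 2 * v.count V.d := by
  induction v with
  | nil => rfl
  | cons x v ih =>
    rw [C_th_cons, List.length_append, ih]
    cases x <;> simp [th1] <;> ring

theorem even_th_length (v : List V) : Even (th v).length ↔ Even (v.count V.b) := by
  rw [C_th_length]
  simp only [Nat.even_iff]
  omega

/-- eigenvector weights of the doubling substitution -/
noncomputable def CW (v : List V) : ℝ :=
  v.count V.b + 2 / lam * v.count V.c + 4 / lam ^ 2 * v.count V.d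

theorem C_count_c_th (v : List V) : (th v).count V.c = v.count V.b + 2 * v.count V.d := by
  induction v with
  | nil => rfl
  | cons x v ih =>
    rw [C_th_cons, List.count_append, ih]
    cases x <;> simp [th1] <;> ring

theorem C_count_d_th (v : List V) : (th v).count V.d = v.count V.b := by
  induction v with
  | nil => rfl
  | cons x v ih =>
    rw [C_th_cons, List.count_append, ih]
    cases x <;> simp [th1] <;> ring

theorem C_length (v : List V) : v.length = v.count V.b + v.count V.c + v.count V.d := by
  induction v with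
  | nil => rfl
  | cons x v ih =>
    rw [List.length_cons, ih]
    cases x <;> (simp; ring)

theorem CW_th (v : List V) : CW (th v) = lam * CW v := by
  have h0 := lam_pos
  have h1 := lam_eq
  unfold CW
  rw [count_b_th, C_count_c_th, C_count_d_th]
  push_cast
  field_simp
  linear_combination (-(v.count V.b : ℝ)) * h1

theorem CW_iter (v : List V) (k : ℕ) : CW (th^[k] v) = lam ^ k * CW v := by
  induction k with
  | zero => simp
  | succ k ih =>
    rw [Function.iterate_succ_apply', CW_th, ih]
    ring

theorem length_le_CW (v : List V) : (v.length : ℝ) ≤ 2 * CW v := by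
  have h0 := lam_pos
  have h1 := lam_lt
  have h2 : (1 : ℝ) ≤ 2 * (2 / lam) := by
    rw [← mul_div_assoc, le_div_iff₀ h0]
    linarith
  have h3 : (1 : ℝ) ≤ 2 * (4 / lam ^ 2) := by
    rw [← mul_div_assoc, le_div_iff₀ (by positivity)]
    nlinarith
  rw [C_length]
  unfold CW
  push_cast
  have hb : (0 : ℝ) ≤ (v.count V.b : ℝ) := by positivity
  have hc : (0 : ℝ) ≤ (v.count V.c : ℝ) := by positivity
  have hd : (0 : ℝ) ≤ (v.count V.d : ℝ) := by positivity
  nlinarith [mul_nonneg (sub_nonneg.2 h2) hc, mul_nonneg (sub_nonneg.2 h3) hd]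

theorem CW_le_length (v : List V) : CW v ≤ v.length := by
  have h0 := lam_pos
  have h1 := lam_gt
  have h2 : 2 / lam ≤ (1 : ℝ) := by
    rw [div_le_iff₀ h0]
    linarith
  have h3 : 4 / lam ^ 2 ≤ (1 : ℝ) := by
    rw [div_le_iff₀ (by positivity)]
    nlinarith
  rw [C_length]
  unfold CW
  push_cast
  have hb : (0 : ℝ) ≤ (v.count V.b : ℝ) := by positivity
  have hc : (0 : ℝ) ≤ (v.count V.c : ℝ) := by positivity
  have hd : (0 : ℝ) ≤ (v.count V.d : ℝ) := by positivity
  nlinarith [mul_nonneg (sub_nonneg.2 h2) hc, mul_nonneg (sub_nonneg.2 h3) hd]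

theorem length_th_iter (v : List V) (k : ℕ) : ((th^[k] v).length : ℝ) ≤ 2 * v.length * lam ^ k := by
  have h0 := lam_pos
  calc ((th^[k] v).length : ℝ) ≤ 2 * CW (th^[k] v) := length_le_CW _
    _ = 2 * (lam ^ k * CW v) := by rw [CW_iter]
    _ ≤ 2 * (lam ^ k * v.length) := by
      have := CW_le_length v
      have h := pow_pos h0 k
      gcongr
    _ = 2 * v.length * lam ^ k := by ring

end Pool.Agent.H776R2.Grig
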