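import Mathlib
import Pool.Agent.H776R2.Grig.Defs

set_option autoImplicit false

/-! Task H: final real analysis (helper498). -/

namespace Pool.Agent.H776R2.Grig

open Pool.Agent.Results.MP_03d093_al.SphereBall

theorem H_lam_gt_two : (2 : ℝ) < lam := by linarith [lam_gt]

theorem H_loglam_pos : 0 < Real.log lam := Real.log_pos (by linarith [lam_gt])

theorem H_alpha_pos : 0 < alpha :=
  div_pos (Real.log_pos (by norm_num)) H_loglam_pos

theorem H_lam_alpha : lam ^ alpha = 2 := by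
  rw [Real.rpow_def_of_pos lam_pos]
  have h : Real.log lam * alpha = Real.log 2 := by
    unfold alpha
    field_simp [H_loglam_pos.ne']
  rw [h, Real.exp_log (by norm_num)]

theorem H_pow_alpha (k : ℕ) : (lam ^ k) ^ alpha = 2 ^ k := by
  rw [← Real.rpow_natCast lam k, ← Real.rpow_mul lam_pos.le, mul_comm, Real.rpow_mul lam_pos.le,
    H_lam_alpha, Real.rpow_natCast]

theorem H_ball_zero_pos : 1 ≤ ball 0 := by
  have hne : Nonempty {g : G // len g ≤ 0} := ⟨⟨evG [], len_le []⟩⟩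
  have hfin : Finite {g : G // len g ≤ 0} := (ball_finite 0).to_subtype
  exact Nat.card_pos

theorem H_ball_zero_le : ball 0 ≤ 1 := by
  have hfin : Finite {g : G // len g ≤ 0} := (ball_finite 0).to_subtype
  unfold ball
  rw [Finite.card_le_one_iff_subsingleton]
  refine ⟨fun g h => Subtype.ext ?_⟩
  have key : ∀ g : {g : G // len g ≤ 0}, g.1 = evG [] := by
    intro g
    obtain ⟨w, hw, hg⟩ := exists_geod g.1
    have h0 : w.length = 0 := by
      rw [hw]
      exact Nat.le_zero.1 g.2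
    rw [List.length_eq_zero_iff] at h0
    rw [← hg, h0]
  rw [key g, key h]

theorem H_expo_zero : expo 0 = 1 := by
  unfold expo
  rw [Nat.cast_zero, Real.zero_rpow H_alpha_pos.ne', Real.exp_zero, Nat.floor_one]

theorem H_root (x : ℝ) (hx : 0 < x) : (x ^ (1 / alpha)) ^ alpha = x := by
  rw [← Real.rpow_mul hx.le, one_div, inv_mul_cancel₀ H_alpha_pos.ne', Real.rpow_one]

theorem final_lower (h : ∃ A : ℝ, 0 < A ∧ ∀ k : ℕ, 2 ^ (2 ^ k) ≤ ball ⌊A * lam ^ k⌋₊) :
    Domi expo ball := by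
  obtain ⟨A, hA, h⟩ := h
  have hl2 : 0 < Real.log 2 := Real.log_pos (by norm_num)
  have hl2' : Real.log 2 < 1 := by
    have := Real.log_two_lt_d9
    linarith
  set C1 : ℝ := (2 / Real.log 2) ^ (1 / alpha) with hC1
  have hC1p : 0 < C1 := Real.rpow_pos_of_pos (by positivity) _
  refine ⟨⌈A * C1⌉₊ + 1, Nat.le_add_left _ _, fun n => ?_⟩
  rcases Nat.eq_zero_or_pos n with hn | hn
  · subst hn
    rw [H_expo_zero, mul_zero]
    exact H_ball_zero_pos
  have hn1 : (1 : ℝ) ≤ n := by exact_mod_cast hn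
  have ht : (1 : ℝ) ≤ (n : ℝ) ^ alpha := Real.one_le_rpow hn1 H_alpha_pos.le
  set t : ℝ := (n : ℝ) ^ alpha with htd
  have hx : (1 : ℝ) ≤ t / Real.log 2 := by
    rw [le_div_iff₀ hl2]
    linarith
  obtain ⟨m, hm1, hm2⟩ := exists_nat_pow_near hx (by norm_num : (1 : ℝ) < 2)
  have h1 : t ≤ 2 ^ (m + 1) * Real.log 2 := by
    rw [div_lt_iff₀ hl2] at hm2
    exact hm2.le
  have h2 : (2 : ℝ) ^ (m + 1) ≤ 2 / Real.log 2 * t := by
    have : (2 : ℝ) ^ (m + 1) = 2 * 2 ^ m := by ring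
    rw [this]
    calc 2 * (2 : ℝ) ^ m ≤ 2 * (t / Real.log 2) := by linarith
      _ = 2 / Real.log 2 * t := by ring
  have h3 : lam ^ (m + 1) ≤ C1 * n := by
    have hp : 0 < lam ^ (m + 1) := pow_pos lam_pos _
    have hq : 0 < C1 * n := by positivity
    rw [← Real.rpow_le_rpow_iff hp.le hq.le H_alpha_pos, H_pow_alpha,
      Real.mul_rpow hC1p.le (by positivity), hC1, H_root _ (by positivity)]
    exact h2
  have h4 : expo n ≤ 2 ^ (2 ^ (m + 1)) := by
    unfold expo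
    have : Real.exp t ≤ ((2 ^ (2 ^ (m + 1)) : ℕ) : ℝ) := by
      have e : ((2 ^ (2 ^ (m + 1)) : ℕ) : ℝ) = Real.exp (2 ^ (m + 1) * Real.log 2) := by
        rw [mul_comm, Real.exp_mul, Real.exp_log (by norm_num)]
        push_cast
        rw [← Real.rpow_natCast]
        push_cast
        rfl
      rw [e]
      exact Real.exp_le_exp.2 h1
    exact Nat.floor_le_of_le this
  refine (h4.trans (h (m + 1))).trans (ball_mono ?_)
  refine Nat.floor_le_of_le ?_
  push_cast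
  calc A * lam ^ (m + 1) ≤ A * (C1 * n) := by gcongr
    _ = A * C1 * n := by ring
    _ ≤ (⌈A * C1⌉₊ + 1) * n := by
      gcongr
      have := Nat.le_ceil (A * C1)
      linarith

theorem final_upper
    (h : ∃ C : ℝ, 0 < C ∧ ∀ N : ℕ, (ball ⌊lam ^ N⌋₊ : ℝ) ≤ Real.exp (C * 2 ^ N)) :
    Domi ball expo := by
  obtain ⟨C0, hC0, h⟩ := h
  set C1 : ℝ := (2 * C0) ^ (1 / alpha) with hC1
  have hC1p : 0 < C1 := Real.rpow_pos_of_pos (by positivity) _
  refine ⟨⌈C1⌉₊ + 1, Nat.le_add_left _ _, fun n => ?_⟩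
  rcases Nat.eq_zero_or_pos n with hn | hn
  · subst hn
    rw [mul_zero, H_expo_zero]
    exact H_ball_zero_le
  have hn1 : (1 : ℝ) ≤ n := by exact_mod_cast hn
  obtain ⟨m, hm1, hm2⟩ := exists_nat_pow_near hn1 (by linarith [lam_gt] : (1 : ℝ) < lam)
  have h1 : ball n ≤ ball ⌊lam ^ (m + 1)⌋₊ := ball_mono (Nat.le_floor hm2.le)
  have h2 : (2 : ℝ) ^ (m + 1) ≤ 2 * (n : ℝ) ^ alpha := by
    rw [← H_pow_alpha, ← H_lam_alpha, ← Real.mul_rpow lam_pos.le (by positivity)]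
    refine Real.rpow_le_rpow (pow_pos lam_pos _).le ?_ H_alpha_pos.le
    rw [pow_succ, mul_comm]
    have := lam_pos
    gcongr
  have h3 : C0 * 2 ^ (m + 1) ≤ (((⌈C1⌉₊ + 1) * n : ℕ) : ℝ) ^ alpha := by
    calc C0 * 2 ^ (m + 1) ≤ C0 * (2 * (n : ℝ) ^ alpha) := by gcongr
      _ = (2 * C0) * (n : ℝ) ^ alpha := by ring
      _ = C1 ^ alpha * (n : ℝ) ^ alpha := by rw [hC1, H_root _ (by positivity)]
      _ = (C1 * n) ^ alpha := by rw [Real.mul_rpow hC1p.le (by positivity)]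
      _ ≤ (((⌈C1⌉₊ + 1) * n : ℕ) : ℝ) ^ alpha := by
        refine Real.rpow_le_rpow (by positivity) ?_ H_alpha_pos.le
        push_cast
        have := Nat.le_ceil C1
        gcongr
        linarith
  unfold expo
  refine Nat.le_floor ?_
  calc (ball n : ℝ) ≤ (ball ⌊lam ^ (m + 1)⌋₊ : ℝ) := by exact_mod_cast h1
    _ ≤ Real.exp (C0 * 2 ^ (m + 1)) := h _
    _ ≤ _ := Real.exp_le_exp.2 h3

end Pool.Agent.H776R2.Grig
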