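import Pool.Agent.H776R2.Grig.Defs

set_option autoImplicit false

/-! Task N (helper446): normal form of words. -/

namespace Pool.Agent.H776R2.Grig

open Pool.Agent.Results.MP_03d093_al.SphereBall

theorem N_bcd_fun (w : List Bool) :
    bFun (cFun w) = dFun w ∧ cFun (bFun w) = dFun w ∧ cFun (dFun w) = bFun w ∧
    dFun (cFun w) = bFun w ∧ bFun (dFun w) = cFun w ∧ dFun (bFun w) = cFun w := by
  induction w with
  | nil => simp [bFun, cFun, dFun]
  | cons x w ih =>
    obtain ⟨h1, h2, h3, h4, h5, h6⟩ := ih
    cases x
    · simp [bFun, cFun, dFun, aFun_invol w]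
    · simp [bFun, cFun, dFun, h1, h2, h3, h4, h5, h6]

theorem N_bc : b * c = d := by ext1 w; exact (N_bcd_fun w).1
theorem N_cb : c * b = d := by ext1 w; exact (N_bcd_fun w).2.1
theorem N_cd : c * d = b := by ext1 w; exact (N_bcd_fun w).2.2.1
theorem N_dc : d * c = b := by ext1 w; exact (N_bcd_fun w).2.2.2.1
theorem N_bd : b * d = c := by ext1 w; exact (N_bcd_fun w).2.2.2.2.1
theorem N_db : d * b = c := by ext1 w; exact (N_bcd_fun w).2.2.2.2.2

/-- the letters `c`, `d` are counted -/
def N_cd' : V → ℕ
  | .b => 0
  | .c => 1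
  | .d => 1

theorem N_mu_gt : 1.2325 < mu := by unfold mu; linarith [lam_gt]
theorem N_mu_lt : mu < 1.234 := by unfold mu; linarith [lam_lt]

theorem N_pair (x y : V) :
    (gen x.lt * gen y.lt = 1 ∧ Even (N_cd' x + N_cd' y)) ∨
    ∃ z : V, gen x.lt * gen y.lt = gen z.lt ∧ wt z.lt ≤ wt x.lt + wt y.lt ∧
      (Even (N_cd' z) ↔ Even (N_cd' x + N_cd' y)) := by
  have h1 := N_mu_gt
  have h2 := N_mu_lt
  cases x <;> cases y
  · exact Or.inl ⟨gen_sq _, by decide⟩
  · exact Or.inr ⟨.d, N_bc, by simp only [V.lt, wt]; nlinarith, by decide⟩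
  · exact Or.inr ⟨.c, N_bd, by simp only [V.lt, wt]; nlinarith, by decide⟩
  · exact Or.inr ⟨.d, N_cb, by simp only [V.lt, wt]; nlinarith, by decide⟩
  · exact Or.inl ⟨gen_sq _, by decide⟩
  · exact Or.inr ⟨.b, N_cd, by simp only [V.lt, wt]; nlinarith, by decide⟩
  · exact Or.inr ⟨.c, N_db, by simp only [V.lt, wt]; nlinarith, by decide⟩
  · exact Or.inr ⟨.b, N_dc, by simp only [V.lt, wt]; nlinarith, by decide⟩
  · exact Or.inl ⟨gen_sq _, by decide⟩

theorem N_lt_cases (s : Lt) : s = Lt.A ∨ ∃ x : V, s = x.lt := by
  cases s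
  · exact Or.inl rfl
  · exact Or.inr ⟨.b, rfl⟩
  · exact Or.inr ⟨.c, rfl⟩
  · exact Or.inr ⟨.d, rfl⟩

theorem N_U_cons (x : V) (v : List V) : U (x :: v) = x.lt :: Lt.A :: U v := rfl

theorem N_ev_U_cons (x : V) (v : List V) : ev (U (x :: v)) = gen x.lt * (a * ev (U v)) := by
  rw [N_U_cons, ev_cons, ev_cons]; rfl

theorem N_Kw_cons (s : Lt) (w : List Lt) : Kw (s :: w) = wt s + Kw w := by
  simp [Kw]

theorem N_Kw_U_cons (x : V) (v : List V) : Kw (U (x :: v)) = wt x.lt + Kw (U v) := by
  rw [N_U_cons, N_Kw_cons, N_Kw_cons]; simp [wt]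

theorem N_wt_nonneg (s : Lt) : 0 ≤ wt s := by
  have h1 := N_mu_gt
  cases s <;> simp only [wt] <;> nlinarith

theorem N_countV (x : V) (v : List V) :
    (x :: v).count V.c + (x :: v).count V.d = N_cd' x + (v.count V.c + v.count V.d) := by
  cases x <;> simp [N_cd'] <;> omega

theorem N_countLt (x : V) (w : List Lt) :
    (x.lt :: w).count Lt.C + (x.lt :: w).count Lt.D = N_cd' x + (w.count Lt.C + w.count Lt.D) := by
  cases x <;> simp [N_cd', V.lt] <;> omega

theorem N_countA (x : V) (w : List Lt) : (x.lt :: w).count Lt.A = w.count Lt.A := by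
  cases x <;> simp [V.lt]

theorem N_a_pa (e : Bool) : a * pa e = pa (!e) := by
  cases e
  · simp [pa]
  · simp [pa, aa]

theorem normal_form (w : List Lt) : ∃ (e e' : Bool) (v : List V),
    ev w = pa e * ev (U v) * pa e' ∧ v.length ≤ w.length ∧ Kw (U v) ≤ Kw w ∧
    (Even (v.count V.c + v.count V.d) ↔ Even (w.count Lt.C + w.count Lt.D)) ∧
    (Even (v.length + e.toNat + e'.toNat) ↔ Even (w.count Lt.A)) := by
  induction w with
  | nil =>
    refine ⟨false, false, [], ?_, le_rfl, le_rfl, by simp, by simp⟩
    simp [pa, U]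
  | cons s w ih =>
    obtain ⟨e, e', v, hev, hlen, hK, hcd, hA⟩ := ih
    rcases N_lt_cases s with rfl | ⟨x, rfl⟩
    · refine ⟨!e, e', v, ?_, by simp; omega, ?_, ?_, ?_⟩
      · rw [ev_cons, hev, ← N_a_pa]
        simp [gen, mul_assoc]
      · rw [N_Kw_cons]; simp only [wt]; linarith
      · simpa using hcd
      · rw [List.count_cons_self]
        cases e
        · simp only [Bool.toNat_false, Bool.not_false, Bool.toNat_true] at hA ⊢
          rw [Nat.even_add_one, ← hA]
          rw [show v.length + 1 + e'.toNat = (v.length + 0 + e'.toNat) + 1 by ring, Nat.even_add_one]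
        · simp only [Bool.toNat_false, Bool.not_true, Bool.toNat_true] at hA ⊢
          rw [Nat.even_add_one, ← hA]
          rw [show v.length + 1 + e'.toNat = (v.length + 0 + e'.toNat) + 1 by ring, Nat.even_add_one]
          tauto
    · cases e with
      | true =>
        refine ⟨false, e', x :: v, ?_, by simp; omega, ?_, ?_, ?_⟩
        · rw [ev_cons, hev, N_ev_U_cons]
          simp [pa, mul_assoc]
        · rw [N_Kw_cons, N_Kw_U_cons]; linarith
        · rw [N_countV, N_countLt]
          simp only [Nat.even_iff] at hcd ⊢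
          omega
        · rw [N_countA, ← hA]
          simp only [List.length_cons, Bool.toNat_false, Bool.toNat_true, Nat.even_iff]
      | false =>
        cases v with
        | nil =>
          refine ⟨false, !e', [x], ?_, by simp, ?_, ?_, ?_⟩
          · have h0 : ev (U []) = 1 := rfl
            have h3 : a * pa (!e') = pa e' := by rw [N_a_pa, Bool.not_not]
            rw [ev_cons, hev, N_ev_U_cons, h0, ← h3]
            simp [pa, mul_assoc]
          · rw [N_Kw_cons, N_Kw_U_cons]; linarith
          · rw [N_countV, N_countLt]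
            simp only [Nat.even_iff] at hcd ⊢
            omega
          · rw [N_countA, ← hA]
            cases e' <;> simp
        | cons y v =>
          rcases N_pair x y with ⟨h1, h2⟩ | ⟨z, h1, h2, h3⟩
          · refine ⟨true, e', v, ?_, by simp at hlen ⊢; omega, ?_, ?_, ?_⟩
            · rw [ev_cons, hev, N_ev_U_cons]
              have : gen x.lt * (pa false * (gen y.lt * (a * ev (U v))) * pa e')
                  = (gen x.lt * gen y.lt) * (a * ev (U v) * pa e') := by
                simp [pa, mul_assoc]
              rw [this, h1]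
              simp [pa]
            · rw [N_Kw_cons]
              rw [N_Kw_U_cons] at hK
              have := N_wt_nonneg x.lt
              have := N_wt_nonneg y.lt
              linarith
            · rw [N_countLt]
              rw [N_countV] at hcd
              simp only [Nat.even_iff] at hcd h2 ⊢
              omega
            · rw [N_countA, ← hA]
              simp only [List.length_cons, Bool.toNat_false, Bool.toNat_true, Nat.even_iff]
          · refine ⟨false, e', z :: v, ?_, by simp at hlen ⊢; omega, ?_, ?_, ?_⟩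
            · rw [ev_cons, hev, N_ev_U_cons, N_ev_U_cons]
              have : gen x.lt * (pa false * (gen y.lt * (a * ev (U v))) * pa e')
                  = (gen x.lt * gen y.lt) * (a * ev (U v) * pa e') := by
                simp [pa, mul_assoc]
              rw [this, h1]
              simp [pa, mul_assoc]
            · rw [N_Kw_cons, N_Kw_U_cons]
              rw [N_Kw_U_cons] at hK
              linarith
            · rw [N_countLt, N_countV]
              rw [N_countV] at hcd
              simp only [Nat.even_iff] at hcd h3 ⊢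
              omega
            · rw [N_countA, ← hA]
              simp only [List.length_cons, Bool.toNat_false]

end Pool.Agent.H776R2.Grig
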