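import Pool.Agent.H776R2.Grig.Defs
import Pool.Agent.H776R2.Grig.Norm
import Pool.Agent.H776R2.Grig.Contr

set_option autoImplicit false

/-! Properties of the weighted length `K` (task Q). -/

namespace Pool.Agent.H776R2.Grig

open Pool.Agent.Results.MP_03d093_al.SphereBall

theorem Q_mu_gt : 1 < mu := by
  unfold mu
  have := lam_gt
  linarith

theorem Q_mu_lt : mu < 1.234 := by
  unfold mu
  have := lam_lt
  linarith

theorem Q_mu_eq : 2 * mu ^ 3 = mu ^ 2 + mu + 1 := by
  unfold mu
  have := lam_eq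
  linarith

theorem Q_wt_nonneg (s : Lt) : 0 ≤ wt s := by
  have := Q_mu_gt
  cases s <;> simp only [wt]
  · exact le_rfl
  · positivity
  · linarith
  · norm_num

theorem Q_wt_le (s : Lt) : wt s ≤ mu ^ 2 := by
  have := Q_mu_gt
  cases s <;> simp only [wt]
  · positivity
  · exact le_rfl
  · nlinarith
  · nlinarith

theorem Q_Kw_nonneg (w : List Lt) : 0 ≤ Kw w := by
  unfold Kw
  apply List.sum_nonneg
  intro x hx
  rw [List.mem_map] at hx
  obtain ⟨s, _, rfl⟩ := hx
  exact Q_wt_nonneg s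

theorem Q_Kw_le (w : List Lt) : Kw w ≤ mu ^ 2 * w.length := by
  induction w with
  | nil => simp [Kw]
  | cons s w ih =>
    unfold Kw at ih ⊢
    rw [List.map_cons, List.sum_cons, List.length_cons]
    push_cast
    have := Q_wt_le s
    linarith

theorem Q_len_U (v : List V) : (v.length : ℝ) ≤ Kw (U v) := by
  induction v with
  | nil => simp [Kw, U]
  | cons x v ih =>
    have h1 : Kw (U (x :: v)) = wt x.lt + wt Lt.A + Kw (U v) := by
      simp only [U, Kw, List.flatMap_cons, List.map_append, List.sum_append, List.map_cons,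
        List.map_nil, List.sum_cons, List.sum_nil]
      ring
    have h2 : 1 ≤ wt x.lt := by
      have := Q_mu_gt
      cases x <;> simp only [wt, V.lt]
      · nlinarith
      · linarith
      · exact le_rfl
    have h3 : wt Lt.A = 0 := rfl
    rw [h1, h3, List.length_cons]
    push_cast
    linarith

theorem Q_U_length (v : List V) : (U v).length = 2 * v.length := by
  induction v with
  | nil => rfl
  | cons x v ih =>
    have h1 : U (x :: v) = x.lt :: Lt.A :: U v := by simp [U]
    rw [h1, List.length_cons, List.length_cons, List.length_cons, ih]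
    omega

theorem Q_bdd (g : P) : BddBelow {x : ℝ | ∃ w : List Lt, ev w = g ∧ Kw w = x} := by
  refine ⟨0, ?_⟩
  rintro x ⟨w, _, rfl⟩
  exact Q_Kw_nonneg w

theorem K_nonneg (g : P) : 0 ≤ K g := by
  apply Real.sInf_nonneg
  rintro x ⟨w, _, rfl⟩
  exact Q_Kw_nonneg w

theorem Q_K_le (w : List Lt) : K (ev w) ≤ Kw w := csInf_le (Q_bdd _) ⟨w, rfl, rfl⟩

theorem Q_exists {g : P} (hg : g ∈ G) {η : ℝ} (hη : 0 < η) :
    ∃ w : List Lt, ev w = g ∧ Kw w < K g + η := by
  obtain ⟨w0, hw0⟩ := exists_word hg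
  have hne : {x : ℝ | ∃ w : List Lt, ev w = g ∧ Kw w = x}.Nonempty := ⟨Kw w0, w0, hw0, rfl⟩
  have h1 : sInf {x : ℝ | ∃ w : List Lt, ev w = g ∧ Kw w = x} < K g + η := by
    unfold K
    linarith
  obtain ⟨x, ⟨w, hw, rfl⟩, hx⟩ := exists_lt_of_csInf_lt hne h1
  exact ⟨w, hw, hx⟩

theorem Q_pa_sq (e : Bool) : pa e * pa e = 1 := by
  cases e
  · simp [pa]
  · simp [pa, aa]

theorem Q_pa_not (e : Bool) : pa e * pa (!e) = a := by
  cases e <;> simp [pa]

theorem Q_const : 2 * mu * (mu + 1 - mu ^ 2) ≤ 2 := by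
  have h1 := Q_mu_gt
  have h2 := Q_mu_lt
  have h3 := Q_mu_eq
  nlinarith

/-- sections of a word of almost minimal weight -/
theorem Q_sec {g : P} (hg : g ∈ G) {η : ℝ} (hη : 0 < η) : ∃ (e : Bool) (u0 u1 : List Lt),
    Sec (g * pa e) (ev u0) (ev u1) ∧
      mu * (Kw u0 + Kw u1) ≤ K g + η + 2 * mu * (mu + 1 - mu ^ 2) := by
  have hmu := Q_mu_gt
  obtain ⟨w, hw, hwK⟩ := Q_exists hg hη
  obtain ⟨e1, e2, v, hev, _, hKU, _, _⟩ := normal_form w
  obtain ⟨w0, w1, heven, hodd, hK⟩ := contraction v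
  rw [hw] at hev
  have hKb : mu * (Kw w0 + Kw w1) ≤ K g + η + 2 * mu * (mu + 1 - mu ^ 2) := by
    have h1 : mu * (Kw w0 + Kw w1) ≤ mu * (Kw (U v) / mu + 2 * (mu + 1 - mu ^ 2)) :=
      mul_le_mul_of_nonneg_left hK (by linarith)
    have h2 : mu * (Kw (U v) / mu + 2 * (mu + 1 - mu ^ 2)) =
        Kw (U v) + 2 * mu * (mu + 1 - mu ^ 2) := by
      have : mu ≠ 0 := by linarith
      field_simp
    rw [h2] at h1
    linarith
  have hKb' : mu * (Kw w1 + Kw w0) ≤ K g + η + 2 * mu * (mu + 1 - mu ^ 2) := by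
    rw [add_comm (Kw w1)]
    exact hKb
  by_cases hv : Even v.length
  · have hs := heven hv
    cases e1 with
    | false =>
      refine ⟨e2, w0, w1, ?_, hKb⟩
      have : g * pa e2 = ev (U v) := by
        rw [hev, mul_assoc, Q_pa_sq]
        simp [pa]
      rw [this]
      exact hs
    | true =>
      refine ⟨!e2, w1, w0, ?_, hKb'⟩
      have : g * pa (!e2) = a * ev (U v) * a := by
        rw [hev, mul_assoc, Q_pa_not]
        simp [pa]
      rw [this]
      exact hs.conj
  · have hs := hodd hv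
    cases e1 with
    | false =>
      refine ⟨!e2, w0, w1, ?_, hKb⟩
      have : g * pa (!e2) = ev (U v) * a := by
        rw [hev, mul_assoc, Q_pa_not]
        simp [pa]
      rw [this]
      exact hs
    | true =>
      refine ⟨e2, w1, w0, ?_, hKb'⟩
      have : g * pa e2 = a * (ev (U v) * a) * a := by
        rw [hev, mul_assoc, Q_pa_sq, mul_one]
        have h1 : a * (ev (U v) * a) * a = a * ev (U v) * (a * a) := by group
        rw [h1, aa, mul_one]
        simp [pa]
      rw [this]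
      exact hs.conj

theorem Q_unique_e {g f0 f1 f0' f1' : P} {e e' : Bool} (h : Sec (g * pa e) f0 f1)
    (h' : Sec (g * pa e') f0' f1') : e = e' := by
  have key : ∀ {f0 f1 f0' f1' : P}, Sec (g * pa false) f0 f1 → Sec (g * pa true) f0' f1' →
      False := by
    intro f0 f1 f0' f1' h h'
    have h1 := (h []).1
    have h2 := (h' []).2
    simp only [pa, Bool.false_eq_true, if_false, if_true, mul_one, Equiv.Perm.mul_apply, a_apply,
      aFun, Bool.not_true] at h1 h2
    rw [h1] at h2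
    simp at h2
  cases e <;> cases e'
  · rfl
  · exact (key h h').elim
  · exact (key h' h).elim
  · rfl

theorem K_section (g : P) (hg : g ∈ G) : ∃ e : Bool, ∃ g0 ∈ G, ∃ g1 ∈ G,
    Sec (g * pa e) g0 g1 ∧ mu * (K g0 + K g1) ≤ K g + 2 := by
  have hmu := Q_mu_gt
  obtain ⟨e, u0, u1, hsec, _⟩ := Q_sec hg one_pos
  refine ⟨e, ev u0, ev_mem u0, ev u1, ev_mem u1, hsec, ?_⟩
  have h1 : mu * (K (ev u0) + K (ev u1)) ≤ K g + 2 * mu * (mu + 1 - mu ^ 2) := by
    apply le_of_forall_pos_le_add
    intro η hη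
    obtain ⟨e', u0', u1', hsec', hK'⟩ := Q_sec hg hη
    have he := Q_unique_e hsec hsec'
    subst he
    obtain ⟨h0, h1⟩ := hsec.unique hsec'
    have k0 := Q_K_le u0'
    have k1 := Q_K_le u1'
    rw [← h0] at k0
    rw [← h1] at k1
    have : mu * (K (ev u0) + K (ev u1)) ≤ mu * (Kw u0' + Kw u1') :=
      mul_le_mul_of_nonneg_left (by linarith) (by linarith)
    linarith
  have := Q_const
  linarith

theorem len_le_K (g : G) : (len g : ℝ) ≤ 2 * K g + 2 := by
  apply le_of_forall_pos_le_add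
  intro η hη
  obtain ⟨w, hw, hwK⟩ := Q_exists g.2 (half_pos hη)
  obtain ⟨e1, e2, v, hev, _, hKU, _, _⟩ := normal_form w
  rw [hw] at hev
  set pw : Bool → List Lt := fun e => if e then [Lt.A] else [] with hpw
  have hpw1 : ∀ e, ev (pw e) = pa e := by
    intro e
    cases e
    · simp [hpw, pa]
    · simp [hpw, pa, gen]
  have hpwl : ∀ e, (pw e).length ≤ 1 := by
    intro e
    cases e <;> simp [hpw]
  have hg : evG (pw e1 ++ U v ++ pw e2) = g := by
    apply Subtype.ext
    show ev (pw e1 ++ U v ++ pw e2) = (g : P)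
    rw [ev_append, ev_append, hpw1, hpw1, hev]
  have h1 := len_le (pw e1 ++ U v ++ pw e2)
  rw [hg, List.length_append, List.length_append, Q_U_length] at h1
  have h2 : len g ≤ 2 * v.length + 2 := by
    have := hpwl e1
    have := hpwl e2
    omega
  have h3 : (len g : ℝ) ≤ 2 * v.length + 2 := by exact_mod_cast h2
  have h4 := Q_len_U v
  linarith

theorem K_le_len (g : G) : K g ≤ mu ^ 2 * len g := by
  obtain ⟨w, hw, hwg⟩ := exists_geod g
  have h1 : ev w = (g : P) := congrArg Subtype.val hwg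
  have h2 := Q_K_le w
  rw [h1] at h2
  have h3 := Q_Kw_le w
  rw [hw] at h3
  linarith

end Pool.Agent.H776R2.Grig
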