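import Pool.Agent.H776R2.Grig.Defs

set_option autoImplicit false

/-! Task L (helper57): `2 ^ (2 ^ k) ≤ ball (A λ^k)` from the realisation theorem. -/

namespace Pool.Agent.H776R2.Grig

open Pool.Agent.Results.MP_03d093_al.SphereBall

/-- extension of a function on the words of length `k` -/
def L_ext {k : ℕ} (f : List.Vector Bool k → Bool) (u : List Bool) : Bool :=
  if h : u.length = k then f ⟨u, h⟩ else false

theorem L_ext_apply {k : ℕ} (f : List.Vector Bool k → Bool) (v : List.Vector Bool k) :
    L_ext f v.1 = f v := by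
  rw [L_ext, dif_pos v.2]
  rfl

/-- the label function of an element is determined by the element -/
theorem L_unique {k : ℕ} {p q : List Bool → Bool} {g : P}
    (hp : Lab (k + 2) (fun u => p (u.take k)) g) (hq : Lab (k + 2) (fun u => q (u.take k)) g)
    (v : List Bool) (hv : v.length = k) : p v = q v := by
  have hlen : (v ++ [false, false]).length = k + 2 := by simp [hv]
  have h1 := hp (v ++ [false, false]) hlen false
  have h2 := hq (v ++ [false, false]) hlen false
  rw [h1] at h2
  have h3 := List.append_cancel_left h2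
  have ht : (v ++ [false, false]).take k = v := by
    rw [List.take_append_of_le_length (by omega), List.take_of_length_le (by omega)]
  simp only [ht, Bool.false_xor, List.cons.injEq, and_true] at h3
  exact h3

theorem ball_lower_of (h : ∃ A : ℝ, 0 < A ∧ ∀ (k : ℕ) (p : List Bool → Bool), ∃ w : List Lt,
    (w.length : ℝ) ≤ A * lam ^ k ∧ Lab (k + 2) (fun u => p (u.take k)) (ev w)) :
    ∃ A : ℝ, 0 < A ∧ ∀ k : ℕ, 2 ^ (2 ^ k) ≤ ball ⌊A * lam ^ k⌋₊ := by
  obtain ⟨A, hA, h⟩ := h
  refine ⟨A, hA, fun k => ?_⟩
  choose w hw1 hw2 using fun f : List.Vector Bool k → Bool => h k (L_ext f)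
  have hlen : ∀ f, len (evG (w f)) ≤ ⌊A * lam ^ k⌋₊ := fun f =>
    (len_le (w f)).trans (Nat.le_floor (hw1 f))
  let Φ : (List.Vector Bool k → Bool) → {g : G // len g ≤ ⌊A * lam ^ k⌋₊} :=
    fun f => ⟨evG (w f), hlen f⟩
  have hinj : Function.Injective Φ := by
    intro f f' hff
    have h1 : ev (w f) = ev (w f') := by
      have h2 : evG (w f) = evG (w f') := congrArg Subtype.val hff
      exact congrArg Subtype.val h2
    funext v
    have h3 := hw2 f
    rw [h1] at h3
    have h4 := L_unique h3 (hw2 f') v.1 v.2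
    rwa [L_ext_apply, L_ext_apply] at h4
  have h5 := Nat.card_le_card_of_injective Φ hinj
  have h6 : Nat.card (List.Vector Bool k → Bool) = 2 ^ (2 ^ k) := by
    rw [Nat.card_eq_fintype_card, Fintype.card_fun, card_vector, Fintype.card_bool]
  rw [h6] at h5
  exact h5

end Pool.Agent.H776R2.Grig
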