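import Pool.Agent.H776R2.Grig.Special

set_option autoImplicit false

namespace Pool.Agent.H776R2.Grig

open Pool.Agent.Results.MP_03d093_al.SphereBall

theorem R_split {n m r : ℕ} (hn : m + r ≤ n) (X : ℝ)
    (hX : ∀ t : List Bool, t.length = r → ∀ q : List Bool → Bool, ∃ w : List Lt,
      (w.length : ℝ) ≤ X ∧ Lab n (fun u => decide ((u.drop m).take r = t) && q (u.take m)) (ev w))
    (p : List Bool → Bool) :
    ∃ w : List Lt, (w.length : ℝ) ≤ 2 ^ r * X ∧ Lab n (fun u => p (u.take (m + r))) (ev w) := by
  have claim : ∀ i : ℕ, ∀ t : List Bool, t.length + i = r → ∀ p : List Bool → Bool, ∃ w : List Lt,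
      (w.length : ℝ) ≤ 2 ^ i * X ∧
      Lab n (fun u => decide ((u.drop (m + i)).take (r - i) = t) && p (u.take (m + i))) (ev w) := by
    intro i
    induction i with
    | zero =>
      intro t ht p
      obtain ⟨w, hw, hl⟩ := hX t (by omega) p
      exact ⟨w, by simpa using hw, by simpa using hl⟩
    | succ i ih =>
      intro t ht p
      obtain ⟨w0, hw0, hl0⟩ := ih (false :: t) (by simp only [List.length_cons]; omega)
        (fun v => p (v ++ [false]))
      obtain ⟨w1, hw1, hl1⟩ := ih (true :: t) (by simp only [List.length_cons]; omega)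
        (fun v => p (v ++ [true]))
      refine ⟨w0 ++ w1, ?_, ?_⟩
      · rw [List.length_append, pow_succ]
        push_cast
        linarith
      · rw [ev_append]
        refine lab_congr ?_ (lab_mul hl0 hl1)
        intro u hu
        have hlt : m + i < u.length := by omega
        have h1 : u.drop (m + i) = u[m + i] :: u.drop (m + i + 1) := List.drop_eq_getElem_cons hlt
        have h2 : u.take (m + (i + 1)) = u.take (m + i) ++ [u[m + i]] := by
          rw [← add_assoc, List.take_succ_eq_append_getElem hlt]
        have h3 : r - i = (r - (i + 1)) + 1 := by omega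
        have h4 : (u.drop (m + i)).take (r - i) = u[m + i] :: (u.drop (m + (i + 1))).take (r - (i + 1)) := by
          rw [h1, h3, List.take_succ_cons, add_assoc]
        simp only [h4, h2, List.cons.injEq]
        cases u[m + i] <;> simp
  obtain ⟨w, hw, hl⟩ := claim r [] (by simp) p
  exact ⟨w, hw, by simpa using hl⟩

theorem R_lam10 : (8192 : ℝ) ≤ lam ^ 10 := by
  have h : (2.465 : ℝ) ^ 10 ≤ lam ^ 10 := pow_le_pow_left₀ (by norm_num) lam_gt.le 10
  refine le_trans ?_ h
  norm_num

theorem realize : ∃ A : ℝ, 0 < A ∧ ∀ (k : ℕ) (p : List Bool → Bool), ∃ w : List Lt,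
    (w.length : ℝ) ≤ A * lam ^ k ∧ Lab (k + 2) (fun u => p (u.take k)) (ev w) := by
  obtain ⟨S1, hS1, h1⟩ := special 9
  obtain ⟨S2, hS2, h2⟩ := special 11
  choose B hB using base
  set A : ℝ := S1 + S2 + ∑ k ∈ Finset.range 10, (B (k + 1) : ℝ) with hA
  have hsum : 0 ≤ ∑ k ∈ Finset.range 10, (B (k + 1) : ℝ) :=
    Finset.sum_nonneg fun _ _ => Nat.cast_nonneg _
  have hA1 : S1 + S2 ≤ A := by linarith
  have hApos : 0 < A := by linarith
  have hlam1 : (1 : ℝ) ≤ lam := by linarith [lam_gt]
  refine ⟨A, hApos, ?_⟩
  intro k
  induction k using Nat.strong_induction_on with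
  | _ k ih =>
    intro p
    by_cases hk : k < 10
    · obtain ⟨w, -, hw, hl⟩ := hB (k + 1) (fun v => p (v.take k))
      refine ⟨w, ?_, ?_⟩
      · have h3 : (B (k + 1) : ℝ) ≤ ∑ k ∈ Finset.range 10, (B (k + 1) : ℝ) :=
          Finset.single_le_sum (f := fun k => (B (k + 1) : ℝ)) (fun _ _ => Nat.cast_nonneg _)
            (Finset.mem_range.2 hk)
        have h4 : (w.length : ℝ) ≤ A := by
          have : (w.length : ℝ) ≤ B (k + 1) := by exact_mod_cast hw
          linarith
        have h5 : (1 : ℝ) ≤ lam ^ k := one_le_pow₀ hlam1
        nlinarith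
      · refine lab_congr ?_ hl
        intro u _
        simp [List.take_take]
    · obtain ⟨m, rfl⟩ : ∃ m, k = m + 10 := ⟨k - 10, by omega⟩
      obtain ⟨ws, hws, hls⟩ := h1 (fun y => y.getD 2 false) m
      have key : ∀ t : List Bool, t.length = 10 → ∀ q : List Bool → Bool, ∃ w : List Lt,
          (w.length : ℝ) ≤ (4 * A + 4 * S1 + 2 * S2) * lam ^ m ∧
          Lab (m + 10 + 2) (fun u => decide ((u.drop m).take 10 = t) && q (u.take m)) (ev w) := by
        intro t ht q
        obtain ⟨we, hwe, hle⟩ := ih m (by omega) q
        obtain ⟨wt, hwt, hlt⟩ := h2 (fun y => decide (y.take 10 = t) && y.getD 10 false) m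
        -- first commutator
        have hs' : Lab (m + 10) (fun u => (fun _ : List Bool => true) (u.take (m + 2)) && u.getD (m + 2) false) (ev ws) := by
          refine lab_congr ?_ hls
          intro u hu
          simp only [Bool.true_and, List.getD_eq_getElem?_getD]
          congr 1
          rw [List.getElem?_take_of_lt (by norm_num), List.getElem?_drop]
        have c1 := lab_comm (j := m + 2) (n := m + 10) (by omega) (q := fun v => q (v.take m))
          (μ := fun _ => true) hle hs'
        have c1' : Lab (m + 10) (fun u => q (u.take m)) (ev (we ++ ws ++ we.reverse ++ ws.reverse)) := by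
          refine lab_congr ?_ c1
          intro u hu
          simp [List.take_take]
        -- second commutator
        have ht' : Lab (m + 10 + 2) (fun u => (fun v : List Bool => decide ((v.drop m).take 10 = t)) (u.take (m + 10))
            && u.getD (m + 10) false) (ev wt) := by
          refine lab_congr ?_ hlt
          intro u hu
          have e1 : ((u.drop m).take 11).take 10 = ((u.take (m + 10)).drop m).take 10 := by
            rw [List.take_take, List.drop_take]
            simp
          have e2 : ((u.drop m).take 11).getD 10 false = u.getD (m + 10) false := by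
            simp only [List.getD_eq_getElem?_getD]
            congr 1
            rw [List.getElem?_take_of_lt (by norm_num), List.getElem?_drop]
          simp only [e1, e2]
        have c2 := lab_comm (j := m + 10) (n := m + 10 + 2) (by omega) (q := fun v => q (v.take m))
          (μ := fun v => decide ((v.drop m).take 10 = t)) c1' ht'
        refine ⟨_, ?_, lab_congr ?_ c2⟩
        · simp only [List.length_append, List.length_reverse]
          push_cast
          nlinarith
        · intro u hu
          have e1 : ((u.take (m + 10)).drop m).take 10 = (u.drop m).take 10 := by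
            rw [List.drop_take]
            simp
          simp only [e1, List.take_take]
          simp
      obtain ⟨w, hw, hl⟩ := R_split (n := m + 10 + 2) (m := m) (r := 10) (by omega) _ key p
      refine ⟨w, hw.trans ?_, hl⟩
      have h10 := R_lam10
      have hm : 0 < lam ^ m := pow_pos lam_pos m
      rw [pow_add]
      have h6 : (2 : ℝ) ^ 10 * (4 * A + 4 * S1 + 2 * S2) ≤ A * 8192 := by
        norm_num
        linarith
      have h7 : A * 8192 ≤ A * lam ^ 10 := mul_le_mul_of_nonneg_left h10 hApos.le
      calc (2 : ℝ) ^ 10 * ((4 * A + 4 * S1 + 2 * S2) * lam ^ m)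
          = ((2 : ℝ) ^ 10 * (4 * A + 4 * S1 + 2 * S2)) * lam ^ m := by ring
        _ ≤ (A * lam ^ 10) * lam ^ m := mul_le_mul_of_nonneg_right (h6.trans h7) hm.le
        _ = A * (lam ^ m * lam ^ 10) := by ring

end Pool.Agent.H776R2.Grig
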