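import Pool.Agent.H776R2.Grig.Comm
import Pool.Agent.H776R2.Grig.Base
import Pool.Agent.H776R2.Grig.Doub
import Pool.Agent.H776R2.Grig.Norm

set_option autoImplicit false

/-! Task S: special elements of length `O(λ^m)`. -/

namespace Pool.Agent.H776R2.Grig

open Pool.Agent.Results.MP_03d093_al.SphereBall

theorem S_pa_mul (x y : Bool) : pa x * pa y = pa (xor x y) := by
  cases x <;> cases y <;> simp [pa, aa]

theorem S_sec (v : List V) (e : Bool) (he : Even (v.count V.b) ↔ e = false) :
    Sec (ev (U (th v)) * pa e) (a * (ev (U v) * pa e) * a) (ev (U v) * pa e) := by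
  cases e
  · have := (sec_th v).1 (he.2 rfl)
    simpa [pa] using this
  · have hne : ¬ Even (v.count V.b) := fun h => by simpa using he.1 h
    have := (sec_th v).2 hne
    have e1 : a * (ev (U v) * pa true) * a = a * ev (U v) := by
      simp [pa, mul_assoc, aa]
    rw [e1]
    simpa [pa] using this

theorem S_count (v : List V) : v.length = v.count V.b + v.count V.c + v.count V.d := by
  induction v with
  | nil => simp
  | cons x v ih =>
    cases x <;> simp [List.count_cons, ih] <;> omega

theorem S_iter (t : ℕ) (h : List Bool → Bool) (v : List V) (e : Bool)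
    (he : Even (v.count V.b) ↔ e = false)
    (h0 : Lab (t + 2) (fun u => h ((u.drop 1).take t)) (ev (U v) * pa e)) (k : ℕ) :
    (Even ((th^[k] v).count V.b) ↔ e = false) ∧
    Lab (t + 2 + k) (fun u => h ((u.drop (k + 1)).take t)) (ev (U (th^[k] v)) * pa e) := by
  induction k with
  | zero => exact ⟨he, h0⟩
  | succ k ih =>
    obtain ⟨ih1, ih2⟩ := ih
    rw [Function.iterate_succ_apply']
    refine ⟨?_, ?_⟩
    · rw [count_b_th, Nat.even_add, ih1]
      have : Even (2 * (th^[k] v).count V.c) := even_two_mul _
      simp [this]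
    · have hs := S_sec (th^[k] v) e ih1
      have hl := lab_sec hs (lab_conj_a (by omega) ih2) ih2
      refine lab_congr ?_ hl
      intro u hu
      match u, hu with
      | x :: y :: u, _ =>
        cases x <;> simp [aFun]
      | [x], hu =>
        simp only [List.length_cons, List.length_nil] at hu
        omega

theorem S_U_length (v : List V) : (U v).length = 2 * v.length := by
  induction v with
  | nil => rfl
  | cons x v ih =>
    have : U (x :: v) = x.lt :: Lt.A :: U v := rfl
    rw [this]
    simp only [List.length_cons, ih]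
    omega

theorem special (t : ℕ) : ∃ S : ℝ, 0 < S ∧ ∀ (h : List Bool → Bool) (m : ℕ), ∃ w : List Lt,
    (w.length : ℝ) ≤ S * lam ^ m ∧ Lab (m + t + 1) (fun u => h ((u.drop m).take t)) (ev w) := by
  obtain ⟨B0, hB0⟩ := base t
  obtain ⟨B1, hB1⟩ := base1 t
  have hl1 : (1 : ℝ) ≤ lam := by have := lam_gt; linarith
  refine ⟨B0 + 4 * B1 + 1, by positivity, ?_⟩
  intro h m
  rcases Nat.eq_zero_or_pos m with rfl | hm
  · obtain ⟨w, -, hw, hlab⟩ := hB0 h
    refine ⟨w, ?_, ?_⟩
    · have : (w.length : ℝ) ≤ B0 := by exact_mod_cast hw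
      have h2 : (0 : ℝ) ≤ B1 := Nat.cast_nonneg _
      simp only [pow_zero, mul_one]
      linarith
    · rw [zero_add]
      simpa using hlab
  · obtain ⟨k, rfl⟩ : ∃ k, m = k + 1 := ⟨m - 1, by omega⟩
    obtain ⟨w, hG, hw, hlab⟩ := hB1 h
    obtain ⟨e0, e1, v, hev, hvl, -, hcd, hA⟩ := normal_form w
    have hcd' : Even (v.count V.c + v.count V.d) := hcd.2 (hG.eC.add hG.eD)
    have hA' : Even (v.length + e0.toNat + e1.toNat) := hA.2 hG.eA
    have hpar : Even (v.count V.b) ↔ xor e0 e1 = false := by
      have h1 := S_count v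
      rw [add_assoc] at h1
      have h2 : Even v.length ↔ Even (v.count V.b) := by
        rw [h1, Nat.even_add]
        simp [hcd']
      rw [← h2]
      cases e0 <;> cases e1 <;>
        simp only [Bool.toNat_false, Bool.toNat_true, add_zero, Nat.even_add_one] at hA' <;>
        simp [hA'] <;> simpa using hA'
    have hconj : ev (U v) * pa (xor e0 e1) = pa e0 * ev w * pa e0 := by
      rw [hev]
      have h1 : pa e0 * pa e0 = 1 := by rw [S_pa_mul]; simp [pa]
      have h2 : pa e1 * pa e0 = pa (xor e0 e1) := by rw [S_pa_mul, Bool.xor_comm]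
      calc ev (U v) * pa (xor e0 e1) = (pa e0 * pa e0) * ev (U v) * (pa e1 * pa e0) := by
            rw [h1, h2, one_mul]
        _ = _ := by simp only [mul_assoc]
    have hlab0 : Lab (t + 2) (fun u => h ((u.drop 1).take t)) (ev (U v) * pa (xor e0 e1)) := by
      rw [hconj]
      cases e0
      · simpa [pa] using hlab
      · have h1 := lab_conj_a (by omega) hlab
        have h2 : pa true = a := by simp [pa]
        rw [h2]
        refine lab_congr ?_ h1
        intro u hu
        match u, hu with
        | x :: u, _ => simp [aFun]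
    obtain ⟨-, hk⟩ := S_iter t h v (xor e0 e1) hpar hlab0 k
    have hlen := length_th_iter v k
    have hvB : (v.length : ℝ) ≤ B1 := by exact_mod_cast hvl.trans hw
    have hpk : (0 : ℝ) < lam ^ k := pow_pos lam_pos k
    have hpk1 : (1 : ℝ) ≤ lam ^ k := one_le_pow₀ hl1
    have hkk : (lam : ℝ) ^ k ≤ lam ^ (k + 1) := pow_le_pow_right₀ hl1 (Nat.le_succ k)
    have hB1' : (0 : ℝ) ≤ B1 := Nat.cast_nonneg _
    have hB0' : (0 : ℝ) ≤ B0 := Nat.cast_nonneg _
    have hmain : (2 * (th^[k] v).length + 1 : ℝ) ≤ (B0 + 4 * B1 + 1) * lam ^ (k + 1) := by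
      have h1 : (2 * v.length * lam ^ k : ℝ) ≤ 2 * B1 * lam ^ k := by
        apply mul_le_mul_of_nonneg_right _ hpk.le
        linarith
      calc (2 * (th^[k] v).length + 1 : ℝ) ≤ 2 * (2 * B1 * lam ^ k) + lam ^ k := by linarith
        _ = (4 * B1 + 1) * lam ^ k := by ring
        _ ≤ (B0 + 4 * B1 + 1) * lam ^ k := by
            apply mul_le_mul_of_nonneg_right _ hpk.le
            linarith
        _ ≤ _ := by
            apply mul_le_mul_of_nonneg_left hkk
            linarith
    have hN : k + 1 + t + 1 = t + 2 + k := by omega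
    rw [hN]
    cases hx : xor e0 e1
    · refine ⟨U (th^[k] v), ?_, ?_⟩
      · rw [S_U_length]
        push_cast
        linarith
      · rw [hx] at hk
        simpa [pa] using hk
    · refine ⟨U (th^[k] v) ++ [Lt.A], ?_, ?_⟩
      · rw [List.length_append, S_U_length]
        push_cast
        simp only [List.length_cons, List.length_nil]
        push_cast
        linarith
      · rw [hx] at hk
        simpa [pa, ev_append, gen] using hk

end Pool.Agent.H776R2.Grig
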