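import Pool.Agent.H776R2.Grig.Defs

set_option autoImplicit false

/-! Statements of all modules (work in progress, sorries). -/

namespace Pool.Agent.H776R2.Grig

open Pool.Agent.Results.MP_03d093_al.SphereBall

/-! ### Task A, file Comm.lean -/

theorem ta_ev (w : List Lt) : TA (ev w) := sorry

theorem lab_one (n : ℕ) : Lab n (fun _ => false) (1 : P) := sorry

theorem lab_mul {n : ℕ} {p q : List Bool → Bool} {g h : P} (hg : Lab n p g) (hh : Lab n q h) :
    Lab n (fun u => xor (p u) (q u)) (g * h) := sorry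

theorem lab_congr {n : ℕ} {p q : List Bool → Bool} {g : P} (h : ∀ u, u.length = n → p u = q u)
    (hg : Lab n p g) : Lab n q g := sorry

theorem lab_sec {n : ℕ} {p0 p1 : List Bool → Bool} {g g0 g1 : P} (h : Sec g g0 g1) (h0 : Lab n p0 g0)
    (h1 : Lab n p1 g1) :
    Lab (n + 1) (fun u => if u.headD false then p1 u.tail else p0 u.tail) g := sorry

theorem lab_conj_a {n : ℕ} {p : List Bool → Bool} {g : P} (hn : 1 ≤ n) (h : Lab n p g) :
    Lab n (fun u => p (aFun u)) (a * g * a) := sorry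

theorem lab_comm {j n : ℕ} (hj : j < n) {q μ : List Bool → Bool} {we ws : List Lt}
    (he : Lab j q (ev we)) (hs : Lab n (fun u => μ (u.take j) && u.getD j false) (ev ws)) :
    Lab n (fun u => μ (u.take j) && q (u.take j)) (ev (we ++ ws ++ we.reverse ++ ws.reverse)) := sorry

/-! ### Task B, file Base.lean -/

theorem base (t : ℕ) : ∃ B : ℕ, ∀ h : List Bool → Bool, ∃ w : List Lt, Good w ∧ w.length ≤ B ∧
    Lab (t + 1) (fun u => h (u.take t)) (ev w) := sorry

theorem base1 (t : ℕ) : ∃ B : ℕ, ∀ h : List Bool → Bool, ∃ w : List Lt, Good w ∧ w.length ≤ B ∧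
    Lab (t + 2) (fun u => h ((u.drop 1).take t)) (ev w) := sorry

/-! ### Task C, file Doub.lean -/

theorem sec_th (v : List V) :
    (Even (v.count V.b) → Sec (ev (U (th v))) (a * ev (U v) * a) (ev (U v))) ∧
    (¬ Even (v.count V.b) → Sec (ev (U (th v)) * a) (a * ev (U v)) (ev (U v) * a)) := sorry

theorem count_b_th (v : List V) : (th v).count V.b = v.count V.b + 2 * v.count V.c := sorry

theorem even_th_length (v : List V) : Even (th v).length ↔ Even (v.count V.b) := sorry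

theorem length_th_iter (v : List V) (k : ℕ) : ((th^[k] v).length : ℝ) ≤ 2 * v.length * lam ^ k := sorry

/-! ### Task N, file Norm.lean -/

theorem normal_form (w : List Lt) : ∃ (e e' : Bool) (v : List V),
    ev w = pa e * ev (U v) * pa e' ∧ v.length ≤ w.length ∧ Kw (U v) ≤ Kw w ∧
    (Even (v.count V.c + v.count V.d) ↔ Even (w.count Lt.C + w.count Lt.D)) ∧
    (Even (v.length + e.toNat + e'.toNat) ↔ Even (w.count Lt.A)) := sorry

/-! ### Task S, file Special.lean -/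

theorem special (t : ℕ) : ∃ S : ℝ, 0 < S ∧ ∀ (h : List Bool → Bool) (m : ℕ), ∃ w : List Lt,
    (w.length : ℝ) ≤ S * lam ^ m ∧ Lab (m + t + 1) (fun u => h ((u.drop m).take t)) (ev w) := sorry

/-! ### Task R, file Realize.lean -/

theorem realize : ∃ A : ℝ, 0 < A ∧ ∀ (k : ℕ) (p : List Bool → Bool), ∃ w : List Lt,
    (w.length : ℝ) ≤ A * lam ^ k ∧ Lab (k + 2) (fun u => p (u.take k)) (ev w) := sorry

/-! ### Task L, file Lower.lean -/

theorem ball_lower : ∃ A : ℝ, 0 < A ∧ ∀ k : ℕ, 2 ^ (2 ^ k) ≤ ball ⌊A * lam ^ k⌋₊ := sorry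

/-! ### Task F, file Contr.lean -/

theorem contraction (v : List V) : ∃ w0 w1 : List Lt,
    (Even v.length → Sec (ev (U v)) (ev w0) (ev w1)) ∧
    (¬ Even v.length → Sec (ev (U v) * a) (ev w0) (ev w1)) ∧
    Kw w0 + Kw w1 ≤ Kw (U v) / mu + 2 * (mu + 1 - mu ^ 2) := sorry

/-! ### Task Q, file KLen.lean -/

theorem K_nonneg (g : P) : 0 ≤ K g := sorry

theorem K_section (g : P) (hg : g ∈ G) : ∃ e : Bool, ∃ g0 ∈ G, ∃ g1 ∈ G,
    Sec (g * pa e) g0 g1 ∧ mu * (K g0 + K g1) ≤ K g + 2 := sorry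

theorem len_le_K (g : G) : (len g : ℝ) ≤ 2 * K g + 2 := sorry

theorem K_le_len (g : G) : K g ≤ mu ^ 2 * len g := sorry

/-! ### Task Z, file Upper.lean -/

theorem ball_upper : ∃ C : ℝ, 0 < C ∧ ∀ N : ℕ, (ball ⌊lam ^ N⌋₊ : ℝ) ≤ Real.exp (C * 2 ^ N) := sorry

/-! ### Task H, file Fin1.lean -/

theorem final_lower (h : ∃ A : ℝ, 0 < A ∧ ∀ k : ℕ, 2 ^ (2 ^ k) ≤ ball ⌊A * lam ^ k⌋₊) :
    Domi expo ball := sorry

theorem final_upper
    (h : ∃ C : ℝ, 0 < C ∧ ∀ N : ℕ, (ball ⌊lam ^ N⌋₊ : ℝ) ≤ Real.exp (C * 2 ^ N)) :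
    Domi ball expo := sorry

end Pool.Agent.H776R2.Grig
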