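import Pool.Agent.H776R2.Grig.KLen

set_option autoImplicit false

/-! Growth upper bound from the contraction (task Z). -/

namespace Pool.Agent.H776R2.Grig

open Pool.Agent.Results.MP_03d093_al.SphereBall

theorem Z_mu_gt : (1 : ℝ) < mu := by
  unfold mu
  have := lam_gt
  linarith

/-- the partition function -/
noncomputable def Z_Z (s : ℝ) : ENNReal := ∑' g : G, ENNReal.ofReal (Real.exp (-s * K g))

instance Z_fin : Fintype Lt := ⟨{.A, .B, .C, .D}, by intro x; cases x <;> simp⟩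

theorem Z_card : Fintype.card Lt = 4 := rfl

theorem Z_words (r : ENNReal) : ∑' w : List Lt, r ^ w.length = ∑' n : ℕ, (4 * r) ^ n := by
  rw [← (Equiv.sigmaFiberEquiv (List.length : List Lt → ℕ)).tsum_eq, ENNReal.tsum_sigma']
  refine tsum_congr fun n => ?_
  have h1 : ∀ v : {l : List Lt // l.length = n},
      r ^ ((Equiv.sigmaFiberEquiv (List.length : List Lt → ℕ)) ⟨n, v⟩).length = r ^ n := by
    rintro ⟨v, hv⟩
    simp only [Equiv.sigmaFiberEquiv_apply]
    rw [hv]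
  rw [tsum_congr h1]
  have : Fintype {l : List Lt // l.length = n} := inferInstanceAs (Fintype (List.Vector Lt n))
  rw [tsum_fintype, Finset.sum_const, Finset.card_univ, nsmul_eq_mul, mul_pow]
  congr 1
  have : Fintype.card {l : List Lt // l.length = n} = 4 ^ n := by
    rw [← Z_card]
    have h2 := card_vector (α := Lt) n
    rw [← Nat.card_eq_fintype_card] at h2 ⊢
    rw [← Nat.card_eq_fintype_card]
    rw [← Nat.card_eq_fintype_card] at h2
    exact h2
  rw [this]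
  norm_cast

theorem Z_four : Z_Z 4 < ⊤ := by
  choose w hw hg using exists_geod
  have hinj : Function.Injective w := by
    intro g h hgh
    rw [← hg g, ← hg h, hgh]
  have h1 : ∀ g : G, ENNReal.ofReal (Real.exp (-4 * K g)) ≤
      ENNReal.ofReal (Real.exp 4) * ENNReal.ofReal (Real.exp (-2)) ^ (w g).length := by
    intro g
    rw [← ENNReal.ofReal_pow (Real.exp_pos _).le, ← Real.exp_nat_mul,
      ← ENNReal.ofReal_mul (Real.exp_pos _).le, ← Real.exp_add]
    apply ENNReal.ofReal_le_ofReal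
    apply Real.exp_le_exp.2
    have h2 := len_le_K g
    rw [hw g]
    linarith
  have h2 : Z_Z 4 ≤ ENNReal.ofReal (Real.exp 4) *
      ∑' v : List Lt, ENNReal.ofReal (Real.exp (-2)) ^ v.length := by
    unfold Z_Z
    refine (ENNReal.tsum_le_tsum h1).trans ?_
    rw [ENNReal.tsum_mul_left]
    gcongr
    exact ENNReal.tsum_comp_le_tsum_of_injective hinj _
  refine lt_of_le_of_lt h2 ?_
  rw [Z_words, ENNReal.tsum_geometric]
  apply ENNReal.mul_lt_top ENNReal.ofReal_lt_top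
  rw [ENNReal.inv_lt_top, tsub_pos_iff_lt]
  have h3 : (4 : ENNReal) = ENNReal.ofReal 4 := by simp
  rw [h3, ← ENNReal.ofReal_mul (by norm_num), ENNReal.ofReal_lt_one]
  have h4 : Real.exp (-2) * Real.exp 2 = 1 := by rw [← Real.exp_add]; simp
  have h5 : (4 : ℝ) < Real.exp 2 := by
    have h6 := Real.exp_one_gt_d9
    have h7 : Real.exp 2 = Real.exp 1 * Real.exp 1 := by rw [← Real.exp_add]; norm_num
    rw [h7]
    nlinarith
  have h8 := Real.exp_pos (-2)
  nlinarith

theorem Z_pa_nil (e : Bool) : pa e [] = [] := by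
  cases e <;> rfl

theorem Z_sec_inj {g h g0 g1 : P} (hg : g ∈ G) (hh : h ∈ G) (e : Bool)
    (h1 : Sec (g * pa e) g0 g1) (h2 : Sec (h * pa e) g0 g1) : g = h := by
  have h3 : g * pa e = h * pa e := by
    ext1 u
    match u with
    | [] =>
      obtain ⟨v, rfl⟩ := exists_word hg
      obtain ⟨v', rfl⟩ := exists_word hh
      rw [Equiv.Perm.mul_apply, Equiv.Perm.mul_apply, Z_pa_nil, ev_nil_apply, ev_nil_apply]
    | false :: u => rw [(h1 u).1, (h2 u).1]
    | true :: u => rw [(h1 u).2, (h2 u).2]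
  exact mul_right_cancel h3

theorem Z_step (s : ℝ) (hs : 0 ≤ s) :
    Z_Z s ≤ 2 * ENNReal.ofReal (Real.exp (2 * s)) * Z_Z (s * mu) ^ 2 := by
  choose e g0 h0 g1 h1 hsec hK using fun g : G => K_section g.1 g.2
  set Φ : G → Bool × G × G := fun g => (e g, ⟨g0 g, h0 g⟩, ⟨g1 g, h1 g⟩) with hΦ
  have hinj : Function.Injective Φ := by
    intro g h hgh
    simp only [hΦ, Prod.mk.injEq, Subtype.mk.injEq] at hgh
    obtain ⟨k1, k2, k3⟩ := hgh
    apply Subtype.ext
    have s1 := hsec g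
    have s2 := hsec h
    rw [k1, k2, k3] at s1
    exact Z_sec_inj g.2 h.2 _ s1 s2
  set F : Bool × G × G → ENNReal := fun p => ENNReal.ofReal (Real.exp (2 * s)) *
    (ENNReal.ofReal (Real.exp (-(s * mu) * K p.2.1)) *
      ENNReal.ofReal (Real.exp (-(s * mu) * K p.2.2))) with hF
  have hle : ∀ g : G, ENNReal.ofReal (Real.exp (-s * K g)) ≤ F (Φ g) := by
    intro g
    simp only [hF, hΦ]
    rw [← ENNReal.ofReal_mul (Real.exp_pos _).le, ← ENNReal.ofReal_mul (Real.exp_pos _).le,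
      ← Real.exp_add, ← Real.exp_add]
    apply ENNReal.ofReal_le_ofReal
    apply Real.exp_le_exp.2
    have h2 := mul_le_mul_of_nonneg_left (hK g) hs
    linarith
  have h3 : Z_Z s ≤ ∑' p, F p := by
    unfold Z_Z
    exact (ENNReal.tsum_le_tsum hle).trans (ENNReal.tsum_comp_le_tsum_of_injective hinj _)
  refine h3.trans (le_of_eq ?_)
  simp only [hF]
  rw [ENNReal.tsum_mul_left, ENNReal.tsum_prod']
  simp only
  rw [tsum_fintype, Fintype.sum_bool, ← two_mul]
  have h4 : ∑' b : G × G, ENNReal.ofReal (Real.exp (-(s * mu) * K b.1)) *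
      ENNReal.ofReal (Real.exp (-(s * mu) * K b.2)) = Z_Z (s * mu) ^ 2 := by
    rw [ENNReal.tsum_prod']
    simp only [ENNReal.tsum_mul_left, ENNReal.tsum_mul_right]
    rw [sq]
    rfl
  rw [h4]
  ring

theorem Z_iter (N : ℕ) : 2 * ENNReal.ofReal (Real.exp 8) * Z_Z (4 / mu ^ N) ≤
    (2 * ENNReal.ofReal (Real.exp 8) * Z_Z 4) ^ 2 ^ N := by
  induction N with
  | zero => simp
  | succ N ih =>
    have hm := Z_mu_gt
    have hm0 : 0 < mu := by linarith
    have h1 := Z_step (4 / mu ^ (N + 1)) (by positivity)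
    have h2 : 4 / mu ^ (N + 1) * mu = 4 / mu ^ N := by
      rw [pow_succ]
      field_simp
    rw [h2] at h1
    have h3 : ENNReal.ofReal (Real.exp (2 * (4 / mu ^ (N + 1)))) ≤
        ENNReal.ofReal (Real.exp 8) := by
      apply ENNReal.ofReal_le_ofReal
      apply Real.exp_le_exp.2
      have h4 : 4 / mu ^ (N + 1) ≤ 4 := by
        apply div_le_self (by norm_num)
        exact one_le_pow₀ hm.le
      linarith
    calc 2 * ENNReal.ofReal (Real.exp 8) * Z_Z (4 / mu ^ (N + 1))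
        ≤ 2 * ENNReal.ofReal (Real.exp 8) *
          (2 * ENNReal.ofReal (Real.exp 8) * Z_Z (4 / mu ^ N) ^ 2) := by
          gcongr
          exact h1.trans (by gcongr)
      _ = (2 * ENNReal.ofReal (Real.exp 8) * Z_Z (4 / mu ^ N)) ^ 2 := by ring
      _ ≤ ((2 * ENNReal.ofReal (Real.exp 8) * Z_Z 4) ^ 2 ^ N) ^ 2 := by gcongr
      _ = _ := by rw [← pow_mul, ← pow_succ]

theorem Z_ball (n : ℕ) (s : ℝ) (hs : 0 ≤ s) :
    (ball n : ENNReal) ≤ ENNReal.ofReal (Real.exp (s * (mu ^ 2 * n))) * Z_Z s := by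
  have key : (ball n : ENNReal) ≤ ∑' _ : {g : G // len g ≤ n}, (1 : ENNReal) := by
    unfold ball
    rcases finite_or_infinite {g : G // len g ≤ n} with h | h
    · have := Fintype.ofFinite {g : G // len g ≤ n}
      rw [Nat.card_eq_fintype_card, tsum_fintype]
      simp
    · rw [Nat.card_eq_zero_of_infinite]
      simp
  refine key.trans ?_
  have h1 : ∀ g : {g : G // len g ≤ n}, (1 : ENNReal) ≤
      ENNReal.ofReal (Real.exp (s * (mu ^ 2 * n))) *
        ENNReal.ofReal (Real.exp (-s * K g.1)) := by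
    intro g
    rw [← ENNReal.ofReal_mul (Real.exp_pos _).le, ← Real.exp_add, ENNReal.one_le_ofReal]
    apply Real.one_le_exp
    have h2 := K_le_len g.1
    have h3 : (len g.1 : ℝ) ≤ n := by exact_mod_cast g.2
    have h4 : mu ^ 2 * (len g.1 : ℝ) ≤ mu ^ 2 * n := mul_le_mul_of_nonneg_left h3 (sq_nonneg _)
    have h5 := mul_le_mul_of_nonneg_left (h2.trans h4) hs
    linarith
  refine (ENNReal.tsum_le_tsum h1).trans ?_
  rw [ENNReal.tsum_mul_left]
  gcongr
  unfold Z_Z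
  exact ENNReal.tsum_comp_le_tsum_of_injective Subtype.val_injective
    (fun g : G => ENNReal.ofReal (Real.exp (-s * K g)))

theorem ball_upper : ∃ C : ℝ, 0 < C ∧ ∀ N : ℕ, (ball ⌊lam ^ N⌋₊ : ℝ) ≤ Real.exp (C * 2 ^ N) := by
  have hm := Z_mu_gt
  have hm0 : 0 < mu := by linarith
  have hlam : lam = 2 * mu := by unfold mu; ring
  set D : ENNReal := 2 * ENNReal.ofReal (Real.exp 8) with hD
  have hD1 : 1 ≤ D := by
    have h1 : (1 : ENNReal) ≤ ENNReal.ofReal (Real.exp 8) := by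
      rw [ENNReal.one_le_ofReal]
      exact Real.one_le_exp (by norm_num)
    calc (1 : ENNReal) = 1 * 1 := by simp
      _ ≤ 2 * ENNReal.ofReal (Real.exp 8) := by
          gcongr
          norm_num
  have hDt : D < ⊤ := ENNReal.mul_lt_top (by simp) ENNReal.ofReal_lt_top
  have hT : D * Z_Z 4 < ⊤ := ENNReal.mul_lt_top hDt Z_four
  obtain ⟨c, hc0, hc⟩ : ∃ c : ℝ, 0 ≤ c ∧ D * Z_Z 4 ≤ ENNReal.ofReal (Real.exp c) := by
    refine ⟨(D * Z_Z 4).toReal, ENNReal.toReal_nonneg, ?_⟩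
    rw [← ENNReal.ofReal_toReal hT.ne]
    apply ENNReal.ofReal_le_ofReal
    rw [ENNReal.ofReal_toReal hT.ne]
    have := Real.add_one_le_exp (D * Z_Z 4).toReal
    linarith
  refine ⟨4 * mu ^ 2 + c, by positivity, fun N => ?_⟩
  have h1 := Z_ball ⌊lam ^ N⌋₊ (4 / mu ^ N) (by positivity)
  have h2 : Z_Z (4 / mu ^ N) ≤ ENNReal.ofReal (Real.exp (c * 2 ^ N)) := by
    calc Z_Z (4 / mu ^ N) = 1 * Z_Z (4 / mu ^ N) := by simp
      _ ≤ D * Z_Z (4 / mu ^ N) := by gcongr
      _ ≤ (D * Z_Z 4) ^ 2 ^ N := Z_iter N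
      _ ≤ (ENNReal.ofReal (Real.exp c)) ^ 2 ^ N := by gcongr
      _ = ENNReal.ofReal (Real.exp (c * 2 ^ N)) := by
          rw [← ENNReal.ofReal_pow (Real.exp_pos _).le, ← Real.exp_nat_mul]
          congr 2
          push_cast
          ring
  have h3 : Real.exp (4 / mu ^ N * (mu ^ 2 * ⌊lam ^ N⌋₊)) ≤ Real.exp (4 * mu ^ 2 * 2 ^ N) := by
    apply Real.exp_le_exp.2
    have h4 : (⌊lam ^ N⌋₊ : ℝ) ≤ lam ^ N := Nat.floor_le (pow_nonneg lam_pos.le _)
    calc 4 / mu ^ N * (mu ^ 2 * ⌊lam ^ N⌋₊) ≤ 4 / mu ^ N * (mu ^ 2 * lam ^ N) := by gcongr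
      _ = 4 * mu ^ 2 * 2 ^ N := by
          rw [hlam, mul_pow]
          field_simp
  have h4 : (ball ⌊lam ^ N⌋₊ : ENNReal) ≤
      ENNReal.ofReal (Real.exp ((4 * mu ^ 2 + c) * 2 ^ N)) := by
    refine h1.trans ?_
    rw [add_mul, Real.exp_add, ENNReal.ofReal_mul (Real.exp_pos _).le]
    exact mul_le_mul' (ENNReal.ofReal_le_ofReal h3) h2
  rw [← ENNReal.ofReal_natCast] at h4
  exact (ENNReal.ofReal_le_ofReal_iff (Real.exp_pos _).le).1 h4

end Pool.Agent.H776R2.Grig
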